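import Pool.Agent.H17.OWN.Tri5

/-!
# Two lines through one point: the count

* `tri6`: one line has the position `(U, V)` (a function of the record `K`), the velocity `d`, and a
  closed functional `V = P + B U / 2 ^ g` with `CH (P, B) ≤ U₀` given `(Q, e, d, M)`. If the frame `j`
  costs no more than the velocity (`tri5`), and the slopes of two lines through the same point are
  separated, then the position costs at most `2 U₀` given `(Q, e, d, M)`.
* `jensen`: the slopes of two samples with the same record coincide with smaller probability when the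
  record is coarser.
-/

set_option autoImplicit false

namespace Pool.OWN17

open Finset Real
open Pool.Agent.H49.Ent Pool.Agent.H32.Dense Pool.STK Pool.CH30 Pool.KM7

section

variable {Ω 𝒦 𝒬 ℰ 𝒥 𝒟 ℳ : Type} [Fintype Ω] {p : Ω → ℝ}

/-- The position from two functionals. -/
theorem solveU {G X C B₁ B₂ P₁ P₂ U V : ℝ} (hG : 0 < G) (hX : 1 ≤ X)
    (h : G ≤ |B₁ - B₂| * X) (h1 : |V - (P₁ + B₁ / G * U)| ≤ C) (h2 : |V - (P₂ + B₂ / G * U)| ≤ C) :
    |U - (P₂ - P₁) / ((B₁ - B₂) / G)| ≤ 2 * C * X := by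
  have hX0 : 0 < X := by linarith
  have hb0 : B₁ - B₂ ≠ 0 := by
    intro h0
    rw [h0, abs_zero, zero_mul] at h
    linarith
  have hb : (B₁ - B₂) / G ≠ 0 := div_ne_zero hb0 hG.ne'
  have e : U - (P₂ - P₁) / ((B₁ - B₂) / G) =
      ((V - (P₂ + B₂ / G * U)) - (V - (P₁ + B₁ / G * U))) / ((B₁ - B₂) / G) := by
    field_simp
    ring
  rw [e, abs_div, div_le_iff₀ (abs_pos.mpr hb)]
  have k1 : |(V - (P₂ + B₂ / G * U)) - (V - (P₁ + B₁ / G * U))| ≤ 2 * C := by
    refine (abs_sub _ _).trans ?_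
    linarith
  have k2 : 1 ≤ |(B₁ - B₂) / G| * X := by
    rw [abs_div, abs_of_pos hG, div_mul_eq_mul_div, le_div_iff₀ hG]
    linarith
  have hC : 0 ≤ C := (abs_nonneg _).trans h1
  refine k1.trans ?_
  nlinarith

/-- **Two lines, the count.** -/
theorem tri6 (hp : IsLaw p) {K : Ω → 𝒦} {Q : Ω → 𝒬} (hQ : Det p K Q) (e : Ω → ℰ)
    (j : Ω → 𝒥) (hj : Det p K j) (d : Ω → 𝒟) (M : Ω → ℳ) (hM : Det p K M)
    {ed : ℝ} (hdj : CH p d (fun ω => (j ω, e ω)) ≤ ed)
    {eJ : ℝ} (hJ : CH p j Q ≤ CH p d (fun ω => (Q ω, e ω)) + eJ)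
    (g x D : ℕ) (U V P B : Ω → ℤ) (hUV : Det p K (fun ω => (U ω, V ω))) {C : ℕ} {η : ℝ}
    (hD : ∀ ω, 0 < p ω → |U ω| ≤ (D : ℤ))
    (hP : ∀ ω, 0 < p ω → |(V ω : ℝ) - (P ω + (B ω : ℝ) / 2 ^ g * U ω)| ≤ C)
    (htr : law (P2 p K) (fun w => |(B w.1 : ℝ) - B w.2| * 2 ^ x < 2 ^ g) True ≤ η)
    {U₀ : ℝ} (hU₀ : CH p (fun ω => (P ω, B ω)) (fun ω => ((d ω, M ω), (Q ω, e ω))) ≤ U₀) :
    CH p (fun ω => (U ω, V ω)) (fun ω => ((d ω, M ω), (Q ω, e ω))) ≤
      2 * U₀ + 2 * (CH p e Q - CH p e K) + eJ + 2 * ed +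
        (Real.log (2 * (((2 * C * 2 ^ x : ℕ) : ℝ) + 1) + 1) + Real.log (2 * ((C : ℝ) + 1) + 1) +
          η * Real.log (2 * D + 1)) := by
  classical
  have hq := P2_isLaw hp K
  have h0 := hq.nonneg
  set q := P2 p K with hqd
  have hX : (1 : ℝ) ≤ 2 ^ x := one_le_pow₀ (by norm_num)
  have hG : (0 : ℝ) < 2 ^ g := by positivity
  have hlD : 0 ≤ Real.log (2 * (D : ℝ) + 1) := Real.log_nonneg (by
    have : (0 : ℝ) ≤ D := Nat.cast_nonneg D
    linarith)
  -- A: the position of the first line given its own data, then the second direction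
  set A : Ω × Ω → (𝒟 × ℳ) × (𝒬 × ℰ) := fun w => ((d w.1, M w.1), (Q w.1, e w.1)) with hA
  set UV : Ω × Ω → ℤ × ℤ := fun w => (U w.1, V w.1) with hUVd
  -- I(UV, d, M ; e2 | Q, e1) is small
  have sA : CH p (fun ω => (U ω, V ω)) (fun ω => ((d ω, M ω), (Q ω, e ω))) ≤
      CH q UV (fun w => (e w.2, A w)) + (CH p e Q - CH p e K) := by
    have c1 : CH q (fun w => (UV w, e w.2)) A = CH q (fun w => e w.2) A +
        CH q UV (fun w => (e w.2, A w)) := CH_chain h0 UV (fun w => e w.2) A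
    have c2 : CH q (fun w => (e w.2, UV w)) A = CH q UV A +
        CH q (fun w => e w.2) (fun w => (UV w, A w)) := CH_chain h0 (fun w => e w.2) UV A
    have c3 : CH q (fun w => (UV w, e w.2)) A = CH q (fun w => (e w.2, UV w)) A := by
      refine CH_congr h0 ?_ ?_ (fun _ _ _ _ h => h) (fun _ _ _ _ h => h) <;>
      · intro ω ω' _ _ h
        simp only [Prod.mk.injEq] at h ⊢
        tauto
    have c5 : CH q UV A = CH p (fun ω => (U ω, V ω)) (fun ω => ((d ω, M ω), (Q ω, e ω))) :=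
      (push2_fst hp K).CH (fun ω => (U ω, V ω)) (fun ω => ((d ω, M ω), (Q ω, e ω)))
    have c6 : CH q (fun w => e w.2) (fun w => w.1) ≤
        CH q (fun w => e w.2) (fun w => (UV w, A w)) := by
      refine CH_mono_cond h0 ?_
      intro w w' _ _ h
      have h' : w.1 = w'.1 := h
      simp only [hA, hUVd, h']
    have c7 : CH q (fun w => e w.2) (fun w => w.1) = CH p e K := P2_CH hp K e
    have c8 : CH q (fun w => e w.2) A ≤ CH p e Q := by
      have f0 : CH q (fun w => e w.2) A ≤ CH q (fun w => e w.2) (fun w => Q w.1) :=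
        CH_mono_cond h0 fun w w' _ _ h => by
          simp only [hA, Prod.mk.injEq] at h
          exact h.2.1
      have f1 : CH q (fun w => e w.2) (fun w => Q w.1) = CH q (fun w => e w.2) (fun w => Q w.2) :=
        CH_supp h0 (fun _ _ => rfl) (fun w hw => P2_rec hp hQ hw)
      have f2 : CH q (fun w => e w.2) (fun w => Q w.2) = CH p e Q := (push2_snd hp K).CH e Q
      linarith
    linarith
  -- the velocity of the second line
  have sB : CH q (fun w => d w.2) (fun w => (e w.2, A w)) ≤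
      eJ + 2 * ed + (CH p e Q - CH p e K) := by
    -- first `j` given `(d1, Q1, e1, e2)`
    have b1 : CH q (fun w => d w.2) (fun w => (e w.2, A w)) ≤
        CH q (fun w => j w.1) (fun w => (e w.2, A w)) + ed := by
      have g1 := CH_le_add h0 (fun w : Ω × Ω => d w.2) (fun w => j w.1) (fun w => (e w.2, A w))
      have g2 : CH q (fun w => d w.2) (fun w => (j w.1, (e w.2, A w))) ≤
          CH q (fun w => d w.2) (fun w => (j w.2, e w.2)) :=
        CH_mono_cond h0 fun w w' hw hw' h => by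
          simp only [Prod.mk.injEq] at h ⊢
          refine ⟨?_, h.2.1⟩
          rw [← P2_rec hp hj hw, ← P2_rec hp hj hw']
          exact h.1
      have g3 : CH q (fun w => d w.2) (fun w => (j w.2, e w.2)) =
          CH p d (fun ω => (j ω, e ω)) := (push2_snd hp K).CH d (fun ω => (j ω, e ω))
      linarith
    -- `CH j (d1, Q1, e1, e2) = CH (j, d1) (Q1,e1,e2) - CH d1 (Q1,e1,e2)`
    set R : Ω × Ω → ℰ × (𝒬 × ℰ) := fun w => (e w.2, (Q w.1, e w.1)) with hR
    have b2 : CH q (fun w => j w.1) (fun w => (e w.2, A w)) ≤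
        CH q (fun w => j w.1) (fun w => (d w.1, R w)) :=
      CH_mono_cond h0 fun w w' _ _ h => by
        simp only [hA, hR, Prod.mk.injEq] at h ⊢
        tauto
    have b3 : CH q (fun w => (j w.1, d w.1)) R = CH q (fun w => d w.1) R +
        CH q (fun w => j w.1) (fun w => (d w.1, R w)) := CH_chain h0 _ _ _
    have b4 : CH q (fun w => (d w.1, j w.1)) R = CH q (fun w => j w.1) R +
        CH q (fun w => d w.1) (fun w => (j w.1, R w)) := CH_chain h0 _ _ _
    have b5 : CH q (fun w => (j w.1, d w.1)) R = CH q (fun w => (d w.1, j w.1)) R := by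
      refine CH_congr h0 ?_ ?_ (fun _ _ _ _ h => h) (fun _ _ _ _ h => h) <;>
      · intro ω ω' _ _ h
        simp only [Prod.mk.injEq] at h ⊢
        tauto
    have b6 : CH q (fun w => d w.1) (fun w => (j w.1, R w)) ≤ ed := by
      have g1 : CH q (fun w => d w.1) (fun w => (j w.1, R w)) ≤
          CH q (fun w => d w.1) (fun w => (j w.1, e w.1)) :=
        CH_mono_cond h0 fun w w' _ _ h => by
          simp only [hR, Prod.mk.injEq] at h ⊢
          tauto
      have g2 : CH q (fun w => d w.1) (fun w => (j w.1, e w.1)) =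
          CH p d (fun ω => (j ω, e ω)) := (push2_fst hp K).CH d (fun ω => (j ω, e ω))
      linarith
    have b7 : CH q (fun w => j w.1) R ≤ CH p j Q := by
      have g1 : CH q (fun w => j w.1) R ≤ CH q (fun w => j w.1) (fun w => Q w.1) :=
        CH_mono_cond h0 fun w w' _ _ h => by
          simp only [hR, Prod.mk.injEq] at h ⊢
          tauto
      have g2 : CH q (fun w => j w.1) (fun w => Q w.1) = CH p j Q := (push2_fst hp K).CH j Q
      linarith
    have b8 : CH p d (fun ω => (Q ω, e ω)) - (CH p e Q - CH p e K) ≤ CH q (fun w => d w.1) R := by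
      have c1 : CH q (fun w => (d w.1, e w.2)) (fun w => (Q w.1, e w.1)) =
          CH q (fun w => e w.2) (fun w => (Q w.1, e w.1)) + CH q (fun w => d w.1) R :=
        CH_chain h0 _ _ _
      have c2 : CH q (fun w => (e w.2, d w.1)) (fun w => (Q w.1, e w.1)) =
          CH q (fun w => d w.1) (fun w => (Q w.1, e w.1)) +
            CH q (fun w => e w.2) (fun w => (d w.1, (Q w.1, e w.1))) := CH_chain h0 _ _ _
      have c3 : CH q (fun w => (d w.1, e w.2)) (fun w => (Q w.1, e w.1)) =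
          CH q (fun w => (e w.2, d w.1)) (fun w => (Q w.1, e w.1)) := by
        refine CH_congr h0 ?_ ?_ (fun _ _ _ _ h => h) (fun _ _ _ _ h => h) <;>
        · intro ω ω' _ _ h
          simp only [Prod.mk.injEq] at h ⊢
          tauto
      have c4 : CH q (fun w => d w.1) (fun w => (Q w.1, e w.1)) =
          CH p d (fun ω => (Q ω, e ω)) := (push2_fst hp K).CH d (fun ω => (Q ω, e ω))
      have c5 : CH q (fun w => e w.2) (fun w => w.1) ≤
          CH q (fun w => e w.2) (fun w => (d w.1, (Q w.1, e w.1))) := by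
        refine CH_mono_cond h0 ?_
        intro w w' _ _ h
        have h' : w.1 = w'.1 := h
        simp only [h']
      have c6 : CH q (fun w => e w.2) (fun w => w.1) = CH p e K := P2_CH hp K e
      have c7 : CH q (fun w => e w.2) (fun w => (Q w.1, e w.1)) ≤ CH p e Q := by
        have f0 : CH q (fun w => e w.2) (fun w => (Q w.1, e w.1)) ≤
            CH q (fun w => e w.2) (fun w => Q w.1) :=
          CH_mono_cond h0 fun w w' _ _ h => by
            simp only [Prod.mk.injEq] at h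
            exact h.1
        have f1 : CH q (fun w => e w.2) (fun w => Q w.1) =
            CH q (fun w => e w.2) (fun w => Q w.2) :=
          CH_supp h0 (fun _ _ => rfl) (fun w hw => P2_rec hp hQ hw)
        have f2 : CH q (fun w => e w.2) (fun w => Q w.2) = CH p e Q := (push2_snd hp K).CH e Q
        linarith
      linarith
    linarith
  -- the two functionals
  set PB1 : Ω × Ω → ℤ × ℤ := fun w => (P w.1, B w.1) with hPB1
  set PB2 : Ω × Ω → ℤ × ℤ := fun w => (P w.2, B w.2) with hPB2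
  set Z : Ω × Ω → 𝒟 × (ℰ × ((𝒟 × ℳ) × (𝒬 × ℰ))) := fun w => (d w.2, (e w.2, A w)) with hZ
  have s1 : CH q PB1 Z ≤ U₀ := by
    have g1 : CH q PB1 Z ≤ CH q PB1 A := CH_mono_cond h0 fun w w' _ _ h => by
      simp only [hZ, Prod.mk.injEq] at h
      exact h.2.2
    have g2 : CH q PB1 A = CH p (fun ω => (P ω, B ω)) (fun ω => ((d ω, M ω), (Q ω, e ω))) :=
      (push2_fst hp K).CH (fun ω => (P ω, B ω)) (fun ω => ((d ω, M ω), (Q ω, e ω)))
    linarith
  have s2 : CH q PB2 Z ≤ U₀ := by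
    have g1 : CH q PB2 Z ≤ CH q PB2 (fun w => ((d w.2, M w.2), (Q w.2, e w.2))) :=
      CH_mono_cond h0 fun w w' hw hw' h => by
        simp only [hZ, hA, Prod.mk.injEq] at h ⊢
        rw [← P2_rec hp hM hw, ← P2_rec hp hM hw', ← P2_rec hp hQ hw, ← P2_rec hp hQ hw']
        tauto
    have g2 : CH q PB2 (fun w => ((d w.2, M w.2), (Q w.2, e w.2))) =
        CH p (fun ω => (P ω, B ω)) (fun ω => ((d ω, M ω), (Q ω, e ω))) :=
      (push2_snd hp K).CH (fun ω => (P ω, B ω)) (fun ω => ((d ω, M ω), (Q ω, e ω)))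
    linarith
  have s3 : CH q UV (fun w => (PB2 w, (PB1 w, Z w))) ≤
      Real.log (2 * (((2 * C * 2 ^ x : ℕ) : ℝ) + 1) + 1) + η * Real.log (2 * D + 1) +
        Real.log (2 * ((C : ℝ) + 1) + 1) := by
    have r1 := cnt hq (fun w : Ω × Ω => U w.1) (fun w => (PB2 w, (PB1 w, Z w)))
      (fun z => (2 : ℝ) ^ g ≤ |(z.2.1.2 : ℝ) - z.1.2| * 2 ^ x)
      (fun z => ((z.1.1 : ℝ) - z.2.1.1) / (((z.2.1.2 : ℝ) - z.1.2) / 2 ^ g)) (2 * C * 2 ^ x) D
      (fun w hw hg => by
        obtain ⟨p1, p2, -⟩ := (P2_pos hp w).mp hw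
        have e1 := Prod.ext_iff.mp (P2_rec hp hUV hw)
        have k1 := hP _ p1
        have k2 := hP _ p2
        simp only at e1
        rw [← e1.1, ← e1.2] at k2
        have := solveU (G := 2 ^ g) (X := 2 ^ x) (C := (C : ℝ)) hG hX hg k1 k2
        push_cast
        exact this)
      (fun w hw => hD _ ((P2_pos hp w).mp hw).1)
    have r2 : law q (fun w => ¬ ((2 : ℝ) ^ g ≤ |((PB1 w).2 : ℝ) - (PB2 w).2| * 2 ^ x)) True ≤ η := by
      refine le_trans (law_imp hq fun w _ hg => ?_) htr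
      exact not_le.mp hg
    have r3 := mul_le_mul_of_nonneg_right r2 hlD
    have r4 : CH q (fun w => V w.1) (fun w => (U w.1, (PB2 w, (PB1 w, Z w)))) ≤
        Real.log (2 * ((C : ℝ) + 1) + 1) :=
      cnt0 hq _ _ (fun z => (z.2.2.1.1 : ℝ) + (z.2.2.1.2 : ℝ) / 2 ^ g * z.1) C
        (fun w hw => hP _ ((P2_pos hp w).mp hw).1)
    have r5 : CH q UV (fun w => (PB2 w, (PB1 w, Z w))) =
        CH q (fun w => (V w.1, U w.1)) (fun w => (PB2 w, (PB1 w, Z w))) := by
      refine CH_congr h0 ?_ ?_ (fun _ _ _ _ h => h) (fun _ _ _ _ h => h) <;>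
      · intro ω ω' _ _ h
        have h1 := (Prod.ext_iff.mp h).1
        simp only [hUVd, Prod.mk.injEq] at h1 ⊢
        tauto
    have r6 := CH_chain h0 (fun w : Ω × Ω => V w.1) (fun w => U w.1)
      (fun w => (PB2 w, (PB1 w, Z w)))
    linarith
  have s4 : CH q PB2 (fun w => (PB1 w, Z w)) ≤ CH q PB2 Z :=
    CH_mono_cond h0 fun w w' _ _ h => (Prod.ext_iff.mp h).2
  have t1 := CH_le_add h0 UV PB1 Z
  have t2 := CH_le_add h0 UV PB2 (fun w => (PB1 w, Z w))
  have t3 := CH_le_add h0 UV (fun w => d w.2) (fun w => (e w.2, A w))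
  linarith

end

section jensen

variable {Ω S T ι U : Type} [Fintype Ω] {p : Ω → ℝ}

/-- The tower property. -/
theorem tower (hp : IsLaw p) (c : Ω → ι) (F : Finset ι) (hF : ∀ ω, c ω ∈ F) (Y : Ω → U)
    (h : ι → U → ℝ) :
    ∑ ω, p ω * h (c ω) (Y ω) = ∑ ω, p ω * ∑ γ ∈ F,
      law p (fun ω => (c ω, Y ω)) (γ, Y ω) / law p Y (Y ω) * h γ (Y ω) := by
  classical
  have h0 := hp.nonneg
  have e1 : ∑ ω, p ω * h (c ω) (Y ω) = ∑ z ∈ univ.image (fun ω => (c ω, Y ω)),
      law p (fun ω => (c ω, Y ω)) z * h z.1 z.2 :=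
    sum_mul_eq_sum_image p (fun ω => (c ω, Y ω)) (fun z => h z.1 z.2)
  have e2 : ∑ ω, p ω * ∑ γ ∈ F,
      law p (fun ω => (c ω, Y ω)) (γ, Y ω) / law p Y (Y ω) * h γ (Y ω) =
      ∑ y ∈ univ.image Y, law p Y y * ∑ γ ∈ F,
        law p (fun ω => (c ω, Y ω)) (γ, y) / law p Y y * h γ y :=
    sum_mul_eq_sum_image p Y (fun y => ∑ γ ∈ F,
      law p (fun ω => (c ω, Y ω)) (γ, y) / law p Y y * h γ y)
  rw [e1, e2]
  have e3 : ∑ z ∈ univ.image (fun ω => (c ω, Y ω)),
      law p (fun ω => (c ω, Y ω)) z * h z.1 z.2 =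
      ∑ z ∈ F ×ˢ (univ.image Y), law p (fun ω => (c ω, Y ω)) z * h z.1 z.2 := by
    refine Finset.sum_subset ?_ ?_
    · intro z hz
      obtain ⟨ω, _, rfl⟩ := Finset.mem_image.mp hz
      exact Finset.mem_product.mpr ⟨hF ω, Finset.mem_image_of_mem _ (Finset.mem_univ _)⟩
    · intro z _ hz
      rw [law_eq_zero_of_notMem p _ hz, zero_mul]
  rw [e3, Finset.sum_product_right]
  refine Finset.sum_congr rfl fun y _ => ?_
  rw [Finset.mul_sum]
  refine Finset.sum_congr rfl fun γ _ => ?_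
  by_cases hy : law p Y y = 0
  · have e4 : law p (fun ω => (c ω, Y ω)) (γ, y) = 0 := by
      refine le_antisymm ?_ (law_nonneg h0 _ _)
      rw [← hy]
      unfold law
      refine Finset.sum_le_sum fun ω _ => ?_
      by_cases hc : (c ω, Y ω) = (γ, y)
      · rw [if_pos hc, if_pos (Prod.ext_iff.mp hc).2]
      · rw [if_neg hc]
        split_ifs
        · exact h0 ω
        · exact le_rfl
    rw [e4, hy]
    simp
  · field_simp

open Classical in
/-- The probability of a coincidence. -/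
theorem P2_coll (c : Ω → ι) (Y : Ω → U) :
    law (P2 p Y) (fun w => c w.1 = c w.2) True =
      ∑ ω, p ω * (law p (fun ω => (c ω, Y ω)) (c ω, Y ω) / law p Y (Y ω)) := by
  unfold law
  rw [Fintype.sum_prod_type]
  refine Finset.sum_congr rfl fun ω _ => ?_
  rw [mul_div_assoc', Finset.mul_sum, Finset.sum_div]
  refine Finset.sum_congr rfl fun ω' _ => ?_
  unfold P2 glue law
  simp only [eq_iff_iff, iff_true, Prod.mk.injEq]
  by_cases h1 : c ω = c ω'
  · by_cases h2 : Y ω = Y ω'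
    · rw [if_pos h1, if_pos h2, if_pos ⟨h1.symm, h2.symm⟩]
    · rw [if_pos h1, if_neg h2, if_neg (fun h => h2 h.2.symm)]
      simp
  · rw [if_neg h1, if_neg (fun h => h1 h.1.symm)]
    simp

/-- **Coarser records, fewer coincidences.** -/
theorem jensen (hp : IsLaw p) {X : Ω → S} {K : Ω → T} (hK : Det p X K) (c : Ω → ι) :
    law (P2 p K) (fun w => c w.1 = c w.2) True ≤ law (P2 p X) (fun w => c w.1 = c w.2) True := by
  classical
  have h0 := hp.nonneg
  obtain ⟨F, hF⟩ : ∃ F : Finset ι, ∀ ω, c ω ∈ F :=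
    ⟨univ.image c, fun ω => Finset.mem_image_of_mem _ (Finset.mem_univ _)⟩
  rw [P2_coll, P2_coll]
  -- `K` is a function of `X`
  obtain ⟨κ, hκ⟩ : ∃ κ : S → T, ∀ ω, 0 < p ω → K ω = κ (X ω) := by
    obtain ⟨ω₀, hω₀⟩ : ∃ ω, 0 < p ω := by
      by_contra hcon
      push Not at hcon
      have : ∑ ω, p ω ≤ 0 := Finset.sum_nonpos fun ω _ => hcon ω
      rw [hp.sum_one] at this
      linarith
    refine ⟨fun x => if h : ∃ ω, 0 < p ω ∧ X ω = x then K h.choose else K ω₀, fun ω hω => ?_⟩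
    have h : ∃ ω', 0 < p ω' ∧ X ω' = X ω := ⟨ω, hω, rfl⟩
    simp only
    rw [dif_pos h]
    exact hK _ _ hω h.choose_spec.1 h.choose_spec.2.symm
  have e0 : ∑ ω, p ω * (law p (fun ω => (c ω, K ω)) (c ω, K ω) / law p K (K ω)) =
      ∑ ω, p ω * (law p (fun ω => (c ω, κ (X ω))) (c ω, κ (X ω)) /
        law p (fun ω => κ (X ω)) (κ (X ω))) := by
    refine Finset.sum_congr rfl fun ω _ => ?_
    rcases (h0 ω).eq_or_lt with hω | hω
    · rw [← hω, zero_mul, zero_mul]
    · rw [hκ ω hω, law_supp h0 (X' := fun ω => κ (X ω)) hκ,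
        law_supp h0 (X' := fun ω => (c ω, κ (X ω))) (fun ω a => by rw [hκ ω a])]
  rw [e0]
  set f : ι → S → ℝ := fun γ x => law p (fun ω => (c ω, X ω)) (γ, x) / law p X x with hf
  set t : ι → T → ℝ := fun γ y => law p (fun ω => (c ω, κ (X ω))) (γ, y) /
    law p (fun ω => κ (X ω)) y with ht
  have a1 : ∑ ω, p ω * t (c ω) (κ (X ω)) =
      ∑ ω, p ω * ∑ γ ∈ F, t γ (κ (X ω)) * t γ (κ (X ω)) :=
    tower hp c F hF (fun ω => κ (X ω)) t
  have a2 : ∑ ω, p ω * f (c ω) (X ω) =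
      ∑ ω, p ω * ∑ γ ∈ F, f γ (X ω) * f γ (X ω) := tower hp c F hF X f
  have a3 : ∑ ω, p ω * t (c ω) (κ (X ω)) =
      ∑ ω, p ω * ∑ γ ∈ F, f γ (X ω) * t γ (κ (X ω)) :=
    tower hp c F hF X (fun γ x => t γ (κ x))
  have a4 : ∑ ω, p ω * ∑ γ ∈ F, (2 * (f γ (X ω) * t γ (κ (X ω))) -
      t γ (κ (X ω)) * t γ (κ (X ω))) ≤
      ∑ ω, p ω * ∑ γ ∈ F, f γ (X ω) * f γ (X ω) := by
    refine Finset.sum_le_sum fun ω _ => mul_le_mul_of_nonneg_left ?_ (h0 ω)
    refine Finset.sum_le_sum fun γ _ => ?_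
    nlinarith [sq_nonneg (f γ (X ω) - t γ (κ (X ω)))]
  have a5 : ∑ ω, p ω * ∑ γ ∈ F, (2 * (f γ (X ω) * t γ (κ (X ω))) -
      t γ (κ (X ω)) * t γ (κ (X ω))) =
      2 * (∑ ω, p ω * ∑ γ ∈ F, f γ (X ω) * t γ (κ (X ω))) -
        ∑ ω, p ω * ∑ γ ∈ F, t γ (κ (X ω)) * t γ (κ (X ω)) := by
    rw [Finset.mul_sum, ← Finset.sum_sub_distrib]
    refine Finset.sum_congr rfl fun ω _ => ?_
    rw [Finset.sum_sub_distrib, ← Finset.mul_sum]
    ring
  have a6 : ∑ ω, p ω * t (c ω) (κ (X ω)) ≤ ∑ ω, p ω * f (c ω) (X ω) := by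
    rw [a2]
    linarith
  exact a6

open Classical in
/-- The probability of a shifted coincidence. -/
theorem P2_shift (c : Ω → ℤ) (k : ℤ) (Y : Ω → U) :
    law (P2 p Y) (fun w => c w.2 = c w.1 + k) True =
      ∑ ω, p ω * (law p (fun ω => (c ω, Y ω)) (c ω + k, Y ω) / law p Y (Y ω)) := by
  unfold law
  rw [Fintype.sum_prod_type]
  refine Finset.sum_congr rfl fun ω _ => ?_
  rw [mul_div_assoc', Finset.mul_sum, Finset.sum_div]
  refine Finset.sum_congr rfl fun ω' _ => ?_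
  unfold P2 glue law
  simp only [eq_iff_iff, iff_true, Prod.mk.injEq]
  by_cases h1 : c ω' = c ω + k
  · by_cases h2 : Y ω = Y ω'
    · rw [if_pos h1, if_pos h2, if_pos ⟨h1, h2.symm⟩]
    · rw [if_pos h1, if_neg h2, if_neg (fun h => h2 h.2.symm)]
      simp
  · rw [if_neg h1, if_neg (fun h => h1 h.1)]
    simp

/-- A shifted coincidence is not more probable than a coincidence. -/
theorem shift_le (hp : IsLaw p) (K : Ω → T) (c : Ω → ℤ) (k : ℤ) :
    law (P2 p K) (fun w => c w.2 = c w.1 + k) True ≤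
      law (P2 p K) (fun w => c w.1 = c w.2) True := by
  classical
  have h0 := hp.nonneg
  obtain ⟨F, hF, hF'⟩ : ∃ F : Finset ℤ, (∀ ω, c ω ∈ F) ∧ ∀ γ ∈ F, ∃ ω, c ω = γ :=
    ⟨univ.image c, fun ω => Finset.mem_image_of_mem _ (Finset.mem_univ _), fun γ hγ => by
      obtain ⟨ω, _, h⟩ := Finset.mem_image.mp hγ
      exact ⟨ω, h⟩⟩
  rw [P2_shift, P2_coll]
  set t : ℤ → T → ℝ := fun γ y => law p (fun ω => (c ω, K ω)) (γ, y) / law p K y with ht
  have a1 : ∑ ω, p ω * t (c ω + k) (K ω) =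
      ∑ ω, p ω * ∑ γ ∈ F, t γ (K ω) * t (γ + k) (K ω) :=
    tower hp c F hF K (fun γ y => t (γ + k) y)
  have a2 : ∑ ω, p ω * t (c ω) (K ω) =
      ∑ ω, p ω * ∑ γ ∈ F, t γ (K ω) * t γ (K ω) := tower hp c F hF K t
  have a3 : ∀ y, ∑ γ ∈ F, t (γ + k) y * t (γ + k) y ≤
      ∑ γ ∈ F, t γ y * t γ y := by
    intro y
    have e1 : ∑ γ ∈ F, t (γ + k) y * t (γ + k) y =
        ∑ γ ∈ F.image (fun γ => γ + k), t γ y * t γ y := by
      rw [Finset.sum_image (fun a _ b _ h => by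
        have h' : a + k = b + k := h
        linarith)]
    rw [e1]
    have e2 : ∀ γ ∉ F, t γ y = 0 := by
      intro γ hγ
      simp only [ht]
      rw [law_eq_zero_of_notMem p _ (s := (γ, y)), zero_div]
      intro hh
      obtain ⟨ω, _, hω⟩ := Finset.mem_image.mp hh
      have h1 : c ω = γ := (Prod.ext_iff.mp hω).1
      exact hγ (h1 ▸ hF ω)
    have e3 : ∑ γ ∈ F.image (fun γ => γ + k), t γ y * t γ y =
        ∑ γ ∈ (F.image (fun γ => γ + k)).filter (fun γ => γ ∈ F),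
          t γ y * t γ y := by
      rw [Finset.sum_filter]
      refine Finset.sum_congr rfl fun γ _ => ?_
      by_cases h : γ ∈ F
      · rw [if_pos h]
      · rw [if_neg h, e2 γ h, zero_mul]
    rw [e3]
    refine Finset.sum_le_sum_of_subset_of_nonneg ?_ ?_
    · intro γ hγ
      exact (Finset.mem_filter.mp hγ).2
    · intro γ _ _
      exact mul_self_nonneg _
  have a4 : ∑ ω, p ω * ∑ γ ∈ F, t γ (K ω) * t (γ + k) (K ω) ≤
      ∑ ω, p ω * ∑ γ ∈ F, t γ (K ω) * t γ (K ω) := by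
    refine Finset.sum_le_sum fun ω _ => mul_le_mul_of_nonneg_left ?_ (h0 ω)
    have b1 : ∑ γ ∈ F, t γ (K ω) * t (γ + k) (K ω) ≤
        ∑ γ ∈ F, ((t γ (K ω) * t γ (K ω)) / 2 +
          (t (γ + k) (K ω) * t (γ + k) (K ω)) / 2) := by
      refine Finset.sum_le_sum fun γ _ => ?_
      nlinarith [sq_nonneg (t γ (K ω) - t (γ + k) (K ω))]
    rw [Finset.sum_add_distrib, ← Finset.sum_div, ← Finset.sum_div] at b1
    linarith [a3 (K ω)]
  have a5 : ∑ ω, p ω * t (c ω + k) (K ω) ≤ ∑ ω, p ω * t (c ω) (K ω) := by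
    rw [a1, a2]
    exact a4
  exact a5

/-- Near slopes: three times the coincidences of the cells. -/
theorem near_cells (hp : IsLaw p) (K : Ω → T) (b : Ω → ℝ) {δ : ℝ} (hδ : 0 < δ) :
    law (P2 p K) (fun w => |b w.1 - b w.2| < δ) True ≤
      3 * law (P2 p K) (fun w => ⌊b w.1 / δ⌋ = ⌊b w.2 / δ⌋) True := by
  classical
  have h0 := hp.nonneg
  have hq := P2_isLaw hp K
  set c : Ω → ℤ := fun ω => ⌊b ω / δ⌋ with hc
  -- near implies equal or adjacent cells
  have s1 : law (P2 p K) (fun w => |b w.1 - b w.2| < δ) True ≤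
      law (P2 p K) (fun w => (c w.1 = c w.2) ∨ ((c w.1 + 1 = c w.2) ∨ (c w.1 = c w.2 + 1))) True := by
    refine law_imp hq fun w _ hw => ?_
    have h1 : |b w.1 / δ - b w.2 / δ| < 1 := by
      rw [← sub_div, abs_div, abs_of_pos hδ, div_lt_one hδ]
      exact hw
    have h2 := abs_lt.mp h1
    have f1 := Int.floor_le (b w.1 / δ)
    have f2 := Int.lt_floor_add_one (b w.1 / δ)
    have f3 := Int.floor_le (b w.2 / δ)
    have f4 := Int.lt_floor_add_one (b w.2 / δ)
    have g1 : ((⌊b w.1 / δ⌋ - ⌊b w.2 / δ⌋ : ℤ) : ℝ) < ((2 : ℤ) : ℝ) := by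
      push_cast
      linarith
    have g2 : ((⌊b w.2 / δ⌋ - ⌊b w.1 / δ⌋ : ℤ) : ℝ) < ((2 : ℤ) : ℝ) := by
      push_cast
      linarith
    have g3 := Int.cast_lt.mp g1
    have g4 := Int.cast_lt.mp g2
    simp only [hc]
    omega
  have s2 := law_or hq (fun w : Ω × Ω => c w.1 = c w.2)
    (fun w => (c w.1 + 1 = c w.2) ∨ (c w.1 = c w.2 + 1))
  have s3 := law_or hq (fun w : Ω × Ω => c w.1 + 1 = c w.2) (fun w => c w.1 = c w.2 + 1)
  have adj : law (P2 p K) (fun w => c w.1 + 1 = c w.2) True ≤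
      law (P2 p K) (fun w => c w.1 = c w.2) True := by
    refine le_trans (law_imp hq fun w _ hw => ?_) (shift_le hp K c 1)
    exact hw.symm
  have adj' : law (P2 p K) (fun w => c w.1 = c w.2 + 1) True ≤
      law (P2 p K) (fun w => c w.1 = c w.2) True := by
    refine le_trans (law_imp hq fun w _ hw => ?_) (shift_le hp K c (-1))
    show c w.2 = c w.1 + -1
    have hw' : c w.1 = c w.2 + 1 := hw
    omega
  linarith

/-- **Near slopes over a coarser record.** -/
theorem near_coarse (hp : IsLaw p) {X : Ω → S} {K : Ω → T} (hK : Det p X K) (b : Ω → ℝ)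
    {δ : ℝ} (hδ : 0 < δ) :
    law (P2 p K) (fun w => |b w.1 - b w.2| < δ) True ≤
      3 * law (P2 p X) (fun w => |b w.1 - b w.2| < δ) True := by
  have h1 := near_cells hp K b hδ
  have h2 := jensen hp hK (fun ω => ⌊b ω / δ⌋)
  have h3 : law (P2 p X) (fun w => ⌊b w.1 / δ⌋ = ⌊b w.2 / δ⌋) True ≤
      law (P2 p X) (fun w => |b w.1 - b w.2| < δ) True := by
    refine law_imp (P2_isLaw hp X) fun w _ hw => ?_
    have f1 := Int.floor_le (b w.1 / δ)
    have f2 := Int.lt_floor_add_one (b w.1 / δ)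
    have f3 := Int.floor_le (b w.2 / δ)
    have f4 := Int.lt_floor_add_one (b w.2 / δ)
    have hw' : ((⌊b w.1 / δ⌋ : ℤ) : ℝ) = ⌊b w.2 / δ⌋ := by
      have : ⌊b w.1 / δ⌋ = ⌊b w.2 / δ⌋ := hw
      rw [this]
    have h4 : |b w.1 / δ - b w.2 / δ| < 1 := by
      rw [abs_lt]
      constructor <;> linarith
    rw [← sub_div, abs_div, abs_of_pos hδ, div_lt_one hδ] at h4
    exact h4
  linarith

end jensen

end Pool.OWN17
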