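import Pool.Agent.H17.OWN.Tri6
import Pool.Agent.H68.OWN.Uv2

/-!
# The corner: two coordinates with one turning functional have no defect

`cor`: the join of `uv` (the functional is a function of the position), `tri5` (three lines through
one point: the frame costs one velocity) and `tri6` (two lines through one point: the count), for one
finite law. `K` is the record of the point behind everything, `Qb` the record of the ball in which the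
position is known to the place, `Qa` the record of the ball in which the frame is known to the place.
The defect `τ g log 2` is at most the sum of the errors.
-/

set_option autoImplicit false

namespace Pool.OWN17

open Finset Real
open Pool.Agent.H49.Ent Pool.Agent.H32.Dense Pool.STK Pool.CH30 Pool.KM7 Pool.OWN68

section

variable {Ω 𝒦 𝒜 ℬ ℰ 𝒥 𝒟 ℳ ζ : Type} [Fintype Ω] {p : Ω → ℝ}

/-- **The corner.** -/
theorem cor (hp : IsLaw p) {K : Ω → 𝒦} {Qa : Ω → 𝒜} {Qb : Ω → ℬ} (hQa : Det p K Qa)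
    (hQb : Det p K Qb) (e : Ω → ℰ) (r : ℰ → ℝ) (W : Ω → ζ) {C : ℕ} (hC : 1 ≤ C) (g x D : ℕ)
    {b : ℕ} (hb : 1 ≤ b) (U V B K0 K1 c : Ω → ℤ) {k : ℕ} (hk : k + 1 ≤ C)
    (sU : ∀ ω, 0 < p ω → |U ω| ≤ ((C * 2 ^ g : ℕ) : ℤ))
    (sB : ∀ ω, 0 < p ω → |B ω| ≤ ((C * 2 ^ g : ℕ) : ℤ))
    (sK : ∀ ω, 0 < p ω → |K1 ω| ≤ ((C * 2 ^ g : ℕ) : ℤ))
    (sc : ∀ ω, 0 < p ω → |c ω| ≤ ((C * 2 ^ g : ℕ) : ℤ))
    (hV : ∀ ω, 0 < p ω →
      |2 ^ g * V ω - (2 ^ g * K0 ω + K1 ω * c ω + B ω * U ω)| ≤ k * 2 ^ g)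
    (hUV : Det p K (fun ω => (U ω, V ω)))
    {τ c₀ e₁ eU ec err : ℝ} (hτ : 0 < τ) (hc₀ : 0 < c₀) (he₁ : 0 ≤ e₁) (heU : 0 ≤ eU)
    (hec : 0 ≤ ec)
    (herr : 2 * (eU + ec) + (b * Real.log 2 + Real.log (2 * (g + 1)) + Real.log (nlb 1 C g)) +
      Real.log (2 * C + 5) + 2 * Real.log (2 * (k + 2) + 1) + 2 * Real.log 2 +
      4 * Real.log (2 * (k + 2 * C + 6) + 1) ≤ err)
    (hU : Real.log (2 * (C * 2 ^ g : ℕ) + 1) - eU ≤
      CH p U (fun ω => ((B ω, (K0 ω, K1 ω)), (c ω, W ω))))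
    (hc : Real.log (2 * (C * 2 ^ g : ℕ) + 1) - ec ≤
      CH p c (fun ω => ((B ω, (K0 ω, K1 ω)), W ω)))
    (hall : CH p (fun ω => (U ω, V ω)) (fun ω => (c ω, W ω)) ≤
      (2 - τ) * (g * Real.log 2) + e₁)
    (hnf : ∀ E : Ω → Prop, (∀ ω ω', B ω = B ω' → K0 ω = K0 ω' → K1 ω = K1 ω' → c ω = c ω' →
      W ω = W ω' → (E ω ↔ E ω')) → c₀ ≤ law p E True → ∀ i, i ≤ g → b ∣ i →
      CH (cond p E True) (fun ω => (U ω, V ω))
        (fun ω => ((U ω / 2 ^ (g - i), V ω / 2 ^ (g - i)), (c ω, W ω))) ≤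
        (2 - τ) * (((g : ℝ) - i) * Real.log 2) + e₁)
    -- the near digits of the frame and of the velocity
    (ju jv : Ω → ℤ × ℤ) (hJ : Det p K (fun ω => (ju ω, jv ω))) (du dv : Ω → ℤ)
    (hr : ∀ ω, 0 < p ω → |r (e ω)| ≤ C)
    (hD : ∀ ω, 0 < p ω → |du ω| ≤ (D : ℤ) ∧ |(ju ω).2| ≤ (D : ℤ) ∧ |(jv ω).2| ≤ (D : ℤ))
    (hDU : C * 2 ^ g ≤ D)
    (hdu : ∀ ω, 0 < p ω → |(du ω : ℝ) - ((ju ω).1 + r (e ω) * (ju ω).2)| ≤ C)
    (hdv : ∀ ω, 0 < p ω → |(dv ω : ℝ) - ((jv ω).1 + r (e ω) * (jv ω).2)| ≤ C)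
    (hs : ∀ ω, 0 < p ω → |(dv ω : ℝ) - (K1 ω + (B ω : ℝ) / 2 ^ g * du ω)| ≤ C)
    {η : ℝ} (hsep : law (P2 p K) (fun w => |r (e w.1) - r (e w.2)| * 2 ^ x < 1) True ≤ η)
    (htr : law (P2 p K) (fun w => |(B w.1 : ℝ) - B w.2| * 2 ^ x < 2 ^ g) True ≤ η)
    -- the records
    {ea eb eF : ℝ}
    (hWa : CH p (fun ω => ((U ω, V ω), (c ω, W ω))) (fun ω => (Qa ω, e ω)) ≤ ea)
    (hFa : CH p e Qa - CH p e K ≤ eF) (hFb : CH p e Qb - CH p e K ≤ eF)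
    -- the frame and the velocity to the place
    (j : Ω → 𝒥) (hj : Det p K j) (d : Ω → 𝒟) (M : Ω → ℳ) (hM : Det p K M)
    {ed : ℝ} (hdj : CH p d (fun ω => (j ω, e ω)) ≤ ed)
    (hWb : CH p (fun ω => (c ω, W ω)) (fun ω => ((d ω, M ω), (Qb ω, e ω))) ≤ eb)
    {ρ eR eL : ℝ} (hρ : 0 ≤ ρ)
    (hR : CH p j Qb - CH p d (fun ω => (Qb ω, e ω)) ≤
      ρ * (CH p (fun ω => (ju ω, jv ω)) Qa - CH p (fun ω => (du ω, dv ω))
        (fun ω => (Qa ω, e ω))) + eR)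
    (hL : (2 - τ) * (g * Real.log 2) - eL ≤
      CH p (fun ω => (U ω, V ω)) (fun ω => ((d ω, M ω), (Qb ω, e ω)))) :
    τ * (g * Real.log 2) ≤
      2 * (e₁ + eU + (((g / b : ℕ) + 1) * (c₀ * (g * Real.log 2)) +
        (e₁ + 2 * eU / c₀ + 2 * err) / τ + err) + eb) + eL + eR + 2 * ed + 2 * eF +
      ρ * (3 * eF + 3 * (3 * (((g / b : ℕ) + 1) * (c₀ * (g * Real.log 2)) +
        (e₁ + 2 * eU / c₀ + 2 * err) / τ + err) + ea) +
        (Real.log (2 * (((30 * C ^ 4 * (2 ^ x) ^ 3 : ℕ) : ℝ) + 1) + 1) +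
        2 * Real.log (2 * (((2 * C * 2 ^ x : ℕ) : ℝ) + 1) + 1) +
        3 * Real.log (2 * ((C : ℝ) + 1) + 1) + 5 * η * Real.log (2 * D + 1))) +
      (Real.log (2 * (((2 * C * 2 ^ x : ℕ) : ℝ) + 1) + 1) + Real.log (2 * ((C : ℝ) + 1) + 1) +
          η * Real.log (2 * D + 1)) := by
  classical
  have h0 := hp.nonneg
  obtain ⟨X, hX⟩ : ∃ X, X = ((g / b : ℕ) + 1) * (c₀ * (g * Real.log 2)) +
    (e₁ + 2 * eU / c₀ + 2 * err) / τ + err := ⟨_, rfl⟩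
  obtain ⟨u1, u2, u3⟩ := uv hp W hC g hb U V B K0 K1 c sU sB sK sc hV hτ hc₀ he₁ heU hec herr
    hU hc hall hnf
  rw [← hX] at u1 u2 u3
  rw [← hX]
  set P : Ω → ℤ := fun ω => K0 ω + K1 ω * c ω / 2 ^ g with hP
  -- the functionals in the record
  have s1 : CH p (fun ω => (B ω, K1 ω)) (fun ω => (Qa ω, e ω)) ≤ 3 * X + ea := by
    have a1 := CH_le_add h0 (fun ω => (B ω, K1 ω)) (fun ω => ((U ω, V ω), (c ω, W ω)))
      (fun ω => (Qa ω, e ω))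
    have a2 : CH p (fun ω => (B ω, K1 ω)) (fun ω => (((U ω, V ω), (c ω, W ω)), (Qa ω, e ω))) ≤
        CH p (fun ω => (B ω, K1 ω)) (fun ω => ((U ω, V ω), (c ω, W ω))) :=
      CH_mono_cond h0 fun ω ω' _ _ h => (Prod.ext_iff.mp h).1
    have a3 := CH_subadd h0 B K1 (fun ω => ((U ω, V ω), (c ω, W ω)))
    have a4 : CH p B (fun ω => ((U ω, V ω), (c ω, W ω))) ≤
        CH p (fun ω => (B ω, P ω)) (fun ω => ((U ω, V ω), (c ω, W ω))) :=
      CH_mono_left h0 fun ω ω' _ _ h => (Prod.ext_iff.mp (Prod.ext_iff.mp h).1).1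
    have a5 : CH p K1 (fun ω => ((U ω, V ω), (c ω, W ω))) ≤
        CH p (fun ω => (K1 ω, K0 ω)) (fun ω => ((U ω, V ω), (c ω, W ω))) :=
      CH_mono_left h0 fun ω ω' _ _ h => (Prod.ext_iff.mp (Prod.ext_iff.mp h).1).1
    linarith
  have hC' : ((C : ℕ) : ℝ) ≤ C := le_rfl
  have t5 := tri5 hp hQa e r hC g x D ju jv hJ du dv B K1 hr sB hD hdu hdv hs hsep htr
  -- the count
  have hPV : ∀ ω, 0 < p ω → |(V ω : ℝ) - (P ω + (B ω : ℝ) / 2 ^ g * U ω)| ≤ C := by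
    intro ω hω
    have hG : (0 : ℝ) < 2 ^ g := by positivity
    have h1 := abs_le.mp (hV ω hω)
    have h2 : (0 : ℤ) < 2 ^ g := by positivity
    have h3 := Int.mul_ediv_self_le (x := K1 ω * c ω) h2.ne'
    have h4 := Int.lt_mul_ediv_self_add (x := K1 ω * c ω) h2
    obtain ⟨h5, h6⟩ := h1
    have k1 : (2 : ℤ) ^ g * V ω - (2 ^ g * P ω + B ω * U ω) ≤ (k + 1) * 2 ^ g := by
      simp only [hP]
      linarith
    have k2 : -((k + 1) * 2 ^ g) ≤ (2 : ℤ) ^ g * V ω - (2 ^ g * P ω + B ω * U ω) := by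
      simp only [hP]
      linarith
    have k3 : ((2 : ℝ) ^ g * V ω - (2 ^ g * P ω + B ω * U ω)) ≤ (k + 1) * 2 ^ g := by
      exact_mod_cast k1
    have k4 : -(((k : ℝ) + 1) * 2 ^ g) ≤ ((2 : ℝ) ^ g * V ω - (2 ^ g * P ω + B ω * U ω)) := by
      exact_mod_cast k2
    have k5 : (V ω : ℝ) - (P ω + (B ω : ℝ) / 2 ^ g * U ω) =
        ((2 : ℝ) ^ g * V ω - (2 ^ g * P ω + B ω * U ω)) / 2 ^ g := by
      field_simp
    have k6 : ((k : ℝ) + 1) ≤ C := by exact_mod_cast hk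
    rw [k5, abs_div, abs_of_pos hG, div_le_iff₀ hG, abs_le]
    constructor <;> nlinarith
  have s2 : CH p (fun ω => (P ω, B ω)) (fun ω => ((d ω, M ω), (Qb ω, e ω))) ≤
      (1 - τ) * (g * Real.log 2) + e₁ + eU + X + eb := by
    have a1 := CH_le_add h0 (fun ω => (P ω, B ω)) (fun ω => (c ω, W ω))
      (fun ω => ((d ω, M ω), (Qb ω, e ω)))
    have a2 : CH p (fun ω => (P ω, B ω)) (fun ω => ((c ω, W ω), ((d ω, M ω), (Qb ω, e ω)))) ≤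
        CH p (fun ω => (B ω, P ω)) (fun ω => (c ω, W ω)) := by
      refine (CH_mono_left h0 (X' := fun ω => (B ω, P ω)) fun ω ω' _ _ h => ?_).trans
        (CH_mono_cond h0 fun ω ω' _ _ h => (Prod.ext_iff.mp h).1)
      have h1 := (Prod.ext_iff.mp h).1
      simp only [Prod.mk.injEq] at h1 ⊢
      exact ⟨h1.2, h1.1⟩
    linarith
  have hJ6 : CH p j Qb ≤ CH p d (fun ω => (Qb ω, e ω)) +
      (CH p j Qb - CH p d (fun ω => (Qb ω, e ω))) := by linarith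
  have t6 := tri6 hp hQb e j hj d M hM hdj hJ6 g x D U V P B hUV (C := C)
    (fun ω hω => (sU ω hω).trans (by exact_mod_cast hDU)) hPV htr s2
  have r1 : ρ * (CH p (fun ω => (ju ω, jv ω)) Qa - CH p (fun ω => (du ω, dv ω))
        (fun ω => (Qa ω, e ω))) ≤
      ρ * (3 * eF + 3 * (3 * X + ea) +
        (Real.log (2 * (((30 * C ^ 4 * (2 ^ x) ^ 3 : ℕ) : ℝ) + 1) + 1) +
        2 * Real.log (2 * (((2 * C * 2 ^ x : ℕ) : ℝ) + 1) + 1) +
        3 * Real.log (2 * ((C : ℝ) + 1) + 1) + 5 * η * Real.log (2 * D + 1))) :=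
    mul_le_mul_of_nonneg_left (by linarith) hρ
  linarith

end

end Pool.OWN17
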