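import Pool.Agent.H30.CH.Blk
import Pool.Agent.H15.KM7.Pair

/-!
# Three samples over a record

`P3 p K`: three samples with the same record `K`, conditionally independent given `K`. If the
variable `e` of one sample is nearly independent of the record given `Q`, then a function of the
record is nearly independent of the three values `e` given `Q`.
-/

set_option autoImplicit false

namespace Pool.OWN17

open Finset Real
open Pool.Agent.H49.Ent Pool.Agent.H32.Dense Pool.STK Pool.CH30 Pool.KM7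

section

variable {Ω 𝒦 𝒬 ℰ S T U V : Type} [Fintype Ω] {p : Ω → ℝ}

/-- Three samples, conditionally independent given the record `K`. -/
noncomputable def P3 (p : Ω → ℝ) (K : Ω → 𝒦) : (Ω × Ω) × Ω → ℝ :=
  glue (P2 p K) p (fun v => K v.1) K

theorem hZ3 (hp : IsLaw p) (K : Ω → 𝒦) (z : 𝒦) :
    law (P2 p K) (fun v => K v.1) z = law p K z :=
  law_glue_fst hp.nonneg (fun _ => rfl) K z

theorem P3_isLaw (hp : IsLaw p) (K : Ω → 𝒦) : IsLaw (P3 p K) :=
  ⟨glue_nonneg (P2_isLaw hp K).nonneg hp.nonneg,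
    (sum_glue (P2_isLaw hp K).nonneg (hZ3 hp K)).trans (P2_isLaw hp K).sum_one⟩

theorem P3_pos (hp : IsLaw p) (K : Ω → 𝒦) {w : (Ω × Ω) × Ω} (hw : 0 < P3 p K w) :
    0 < p w.1.1 ∧ 0 < p w.1.2 ∧ 0 < p w.2 ∧ K w.1.1 = K w.1.2 ∧ K w.1.1 = K w.2 := by
  obtain ⟨h1, h2, h3⟩ := (glue_pos_iff (P2_isLaw hp K).nonneg hp.nonneg w).mp hw
  obtain ⟨h4, h5, h6⟩ := (P2_pos hp w.1).mp h1
  exact ⟨h4, h5, h2, h6, h3⟩

theorem push12 (hp : IsLaw p) (K : Ω → 𝒦) : Push (P3 p K) (P2 p K) Prod.fst :=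
  push_fst (P2_isLaw hp K).nonneg (hZ3 hp K)

theorem push2_fst (hp : IsLaw p) (K : Ω → 𝒦) : Push (P2 p K) p Prod.fst :=
  push_fst hp.nonneg (fun _ => rfl)

theorem push2_snd (hp : IsLaw p) (K : Ω → 𝒦) : Push (P2 p K) p Prod.snd :=
  push_snd hp.nonneg (fun _ => rfl)

theorem push13 (hp : IsLaw p) (K : Ω → 𝒦) :
    Push (P3 p K) (P2 p K) (fun w => (w.1.1, w.2)) :=
  push_left (push2_fst hp K) K K

theorem P3_eq (hp : IsLaw p) (K : Ω → 𝒦) :
    P3 p K = glue (P2 p K) p (fun v => K v.2) K := by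
  classical
  funext w
  by_cases h : 0 < P2 p K w.1
  · have h6 : K w.1.1 = K w.1.2 := ((P2_pos hp w.1).mp h).2.2
    have e : law (P2 p K) (fun v => K v.1) (K w.1.1) = law (P2 p K) (fun v => K v.2) (K w.1.2) := by
      rw [h6]
      exact law_supp (P2_isLaw hp K).nonneg (fun v hv => ((P2_pos hp v).mp hv).2.2) _
    unfold P3 glue
    simp only
    rw [e, h6]
  · have h0 : P2 p K w.1 = 0 := le_antisymm (not_lt.mp h) ((P2_isLaw hp K).nonneg _)
    unfold P3 glue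
    rw [h0]
    simp

theorem push23 (hp : IsLaw p) (K : Ω → 𝒦) :
    Push (P3 p K) (P2 p K) (fun w => (w.1.2, w.2)) := by
  rw [P3_eq hp K]
  exact push_left (push2_snd hp K) K K

theorem push1 (hp : IsLaw p) (K : Ω → 𝒦) : Push (P3 p K) p (fun w => w.1.1) :=
  (push2_fst hp K).comp (push12 hp K)

theorem push2 (hp : IsLaw p) (K : Ω → 𝒦) : Push (P3 p K) p (fun w => w.1.2) :=
  (push2_snd hp K).comp (push12 hp K)

theorem push3 (hp : IsLaw p) (K : Ω → 𝒦) : Push (P3 p K) p (fun w => w.2) :=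
  (push2_snd hp K).comp (push23 hp K)

/-- A function of the record has the same value in the two samples. -/
theorem P2_rec (hp : IsLaw p) {K : Ω → 𝒦} {X : Ω → S} (hX : Det p K X) {w : Ω × Ω}
    (hw : 0 < P2 p K w) : X w.1 = X w.2 := by
  obtain ⟨h1, h2, h3⟩ := (P2_pos hp w).mp hw
  exact hX _ _ h1 h2 h3

theorem P3_rec2 (hp : IsLaw p) {K : Ω → 𝒦} {X : Ω → S} (hX : Det p K X) {w : (Ω × Ω) × Ω}
    (hw : 0 < P3 p K w) : X w.1.1 = X w.1.2 := by
  obtain ⟨h1, h2, h3, h4, h5⟩ := P3_pos hp K hw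
  exact hX _ _ h1 h2 h4

theorem P3_rec3 (hp : IsLaw p) {K : Ω → 𝒦} {X : Ω → S} (hX : Det p K X) {w : (Ω × Ω) × Ω}
    (hw : 0 < P3 p K w) : X w.1.1 = X w.2 := by
  obtain ⟨h1, h2, h3, h4, h5⟩ := P3_pos hp K hw
  exact hX _ _ h1 h3 h5

/-- Conditional independence of the second sample given the record. -/
theorem P2_ind (hp : IsLaw p) (K : Ω → 𝒦) (e : Ω → ℰ) {X : Ω → S} (hX : Det p X K) :
    CH (P2 p K) (fun w => e w.2) (fun w => X w.1) = CH p e K :=
  CH_snd_fst hp.nonneg hp.nonneg (fun _ => rfl) hX e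

theorem P3_ind (hp : IsLaw p) (K : Ω → 𝒦) (e : Ω → ℰ) {X : Ω × Ω → S}
    (hX : Det (P2 p K) X (fun v => K v.1)) :
    CH (P3 p K) (fun w => e w.2) (fun w => X w.1) = CH p e K :=
  CH_snd_fst (P2_isLaw hp K).nonneg hp.nonneg (hZ3 hp K) hX e

/-- The two values given the record. -/
theorem P2_joint (hp : IsLaw p) (K : Ω → 𝒦) (e : Ω → ℰ) :
    CH (P2 p K) (fun w => (e w.1, e w.2)) (fun w => K w.1) = 2 * CH p e K := by
  have h0 := (P2_isLaw hp K).nonneg
  have e1 : CH (P2 p K) (fun w => (e w.1, e w.2)) (fun w => K w.1) =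
      CH (P2 p K) (fun w => (e w.2, e w.1)) (fun w => K w.1) := by
    refine CH_congr h0 ?_ ?_ (fun _ _ _ _ h => h) (fun _ _ _ _ h => h) <;>
    · intro ω ω' _ _ h
      simp only [Prod.mk.injEq] at h ⊢
      tauto
  rw [e1, CH_chain h0]
  have e2 : CH (P2 p K) (fun w => e w.1) (fun w => K w.1) = CH p e K :=
    (push2_fst hp K).CH e K
  have e3 := P2_ind hp K e (X := fun ω => (e ω, K ω)) (fun _ _ _ _ h => (Prod.ext_iff.mp h).2)
  rw [e2, e3]
  ring

/-- The three values given the record. -/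
theorem P3_joint (hp : IsLaw p) (K : Ω → 𝒦) (e : Ω → ℰ) :
    CH (P3 p K) (fun w => (e w.1.1, (e w.1.2, e w.2))) (fun w => K w.1.1) = 3 * CH p e K := by
  have h0 := (P3_isLaw hp K).nonneg
  have e1 : CH (P3 p K) (fun w => (e w.1.1, (e w.1.2, e w.2))) (fun w => K w.1.1) =
      CH (P3 p K) (fun w => (e w.2, (e w.1.1, e w.1.2))) (fun w => K w.1.1) := by
    refine CH_congr h0 ?_ ?_ (fun _ _ _ _ h => h) (fun _ _ _ _ h => h) <;>
    · intro ω ω' _ _ h
      simp only [Prod.mk.injEq] at h ⊢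
      tauto
  rw [e1, CH_chain h0]
  have e2 : CH (P3 p K) (fun w => (e w.1.1, e w.1.2)) (fun w => K w.1.1) = 2 * CH p e K := by
    have := (push12 hp K).CH (fun v => (e v.1, e v.2)) (fun v => K v.1)
    rw [this, P2_joint hp K e]
  have e3 := P3_ind hp K e (X := fun v => ((e v.1, e v.2), K v.1))
    (fun _ _ _ _ h => (Prod.ext_iff.mp h).2)
  rw [e2]
  have e4 : CH (P3 p K) (fun w => e w.2) (fun w => ((e w.1.1, e w.1.2), K w.1.1)) = CH p e K := e3
  rw [e4]
  ring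

/-- **Free directions, three samples.** -/
theorem P3_free (hp : IsLaw p) {K : Ω → 𝒦} {Q : Ω → 𝒬} (hQ : Det p K Q) (e : Ω → ℰ)
    {Y : Ω → S} (hY : Det p K Y) :
    CH p Y Q - 3 * (CH p e Q - CH p e K) ≤
      CH (P3 p K) (fun w => Y w.1.1) (fun w => (Q w.1.1, (e w.1.1, (e w.1.2, e w.2)))) := by
  have h0 := (P3_isLaw hp K).nonneg
  set q := P3 p K with hq
  set E : (Ω × Ω) × Ω → ℰ × (ℰ × ℰ) := fun w => (e w.1.1, (e w.1.2, e w.2)) with hE
  set Q1 : (Ω × Ω) × Ω → 𝒬 := fun w => Q w.1.1 with hQ1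
  set Y1 : (Ω × Ω) × Ω → S := fun w => Y w.1.1 with hY1
  -- CH Y1 (Q1, E) = CH (Y1, E) Q1 - CH E Q1 = CH Y1 Q1 + CH E (Y1, Q1) - CH E Q1
  have c1 : CH q (fun w => (Y1 w, E w)) Q1 = CH q E Q1 + CH q Y1 (fun w => (E w, Q1 w)) :=
    CH_chain h0 Y1 E Q1
  have c2 : CH q (fun w => (E w, Y1 w)) Q1 = CH q Y1 Q1 + CH q E (fun w => (Y1 w, Q1 w)) :=
    CH_chain h0 E Y1 Q1
  have c3 : CH q (fun w => (Y1 w, E w)) Q1 = CH q (fun w => (E w, Y1 w)) Q1 := by
    refine CH_congr h0 ?_ ?_ (fun _ _ _ _ h => h) (fun _ _ _ _ h => h) <;>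
    · intro ω ω' _ _ h
      simp only [Prod.mk.injEq] at h ⊢
      tauto
  have c4 : CH q Y1 (fun w => (E w, Q1 w)) = CH q Y1 (fun w => (Q1 w, E w)) := by
    refine CH_congr h0 (fun _ _ _ _ h => (Prod.ext_iff.mp h).1)
      (fun _ _ _ _ h => (Prod.ext_iff.mp h).1) ?_ ?_ <;>
    · intro ω ω' _ _ h
      simp only [Prod.mk.injEq] at h ⊢
      tauto
  have c5 : CH q Y1 Q1 = CH p Y Q := (push1 hp K).CH Y Q
  -- given the record
  have c6 : CH q E (fun w => K w.1.1) ≤ CH q E (fun w => (Y1 w, Q1 w)) := by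
    refine CH_mono_cond h0 ?_
    intro w w' hw hw' h
    have a := (P3_pos hp K hw).1
    have a' := (P3_pos hp K hw').1
    exact Prod.ext (hY _ _ a a' h) (hQ _ _ a a' h)
  have c7 := P3_joint hp K e
  -- given `Q`
  have c8 : CH q E Q1 ≤ 3 * CH p e Q := by
    have d1 := CH_subadd h0 (fun w => e w.1.1) (fun w => (e w.1.2, e w.2)) Q1
    have d2 := CH_subadd h0 (fun w => e w.1.2) (fun w => e w.2) Q1
    have d3 : CH q (fun w => e w.1.1) Q1 = CH p e Q := (push1 hp K).CH e Q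
    have d4 : CH q (fun w => e w.1.2) Q1 = CH p e Q := by
      have f1 : CH q (fun w => e w.1.2) Q1 = CH q (fun w => e w.1.2) (fun w => Q w.1.2) :=
        CH_supp h0 (fun _ _ => rfl) (fun w hw => P3_rec2 hp hQ hw)
      rw [f1]
      exact (push2 hp K).CH e Q
    have d5 : CH q (fun w => e w.2) Q1 = CH p e Q := by
      have f1 : CH q (fun w => e w.2) Q1 = CH q (fun w => e w.2) (fun w => Q w.2) :=
        CH_supp h0 (fun _ _ => rfl) (fun w hw => P3_rec3 hp hQ hw)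
      rw [f1]
      exact (push3 hp K).CH e Q
    linarith
  have c9 : CH q E (fun w => K w.1.1) = 3 * CH p e K := c7
  linarith

/-- **Free directions, two samples**: a variable `Y` of the first sample which is a function of the
record and of `e`, given the second direction. -/
theorem P2_free (hp : IsLaw p) {K : Ω → 𝒦} {Q : Ω → 𝒬} (hQ : Det p K Q) (e : Ω → ℰ)
    {Y : Ω → S} {W : Ω → T} (hY : Det p (fun ω => (K ω, e ω)) (fun ω => (Y ω, W ω))) :
    CH p Y (fun ω => (W ω, (Q ω, e ω))) - (CH p e Q - CH p e K) ≤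
      CH (P2 p K) (fun w => Y w.1) (fun w => (W w.1, (Q w.1, (e w.1, e w.2)))) := by
  have h0 := (P2_isLaw hp K).nonneg
  set q := P2 p K with hq
  -- A := (W, Q, e)
  set A : Ω × Ω → T × (𝒬 × ℰ) := fun w => (W w.1, (Q w.1, e w.1)) with hA
  set Y1 : Ω × Ω → S := fun w => Y w.1 with hY1
  set e2 : Ω × Ω → ℰ := fun w => e w.2 with he2
  have c1 : CH q (fun w => (Y1 w, e2 w)) A = CH q e2 A + CH q Y1 (fun w => (e2 w, A w)) :=
    CH_chain h0 Y1 e2 A
  have c2 : CH q (fun w => (e2 w, Y1 w)) A = CH q Y1 A + CH q e2 (fun w => (Y1 w, A w)) :=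
    CH_chain h0 e2 Y1 A
  have c3 : CH q (fun w => (Y1 w, e2 w)) A = CH q (fun w => (e2 w, Y1 w)) A := by
    refine CH_congr h0 ?_ ?_ (fun _ _ _ _ h => h) (fun _ _ _ _ h => h) <;>
    · intro ω ω' _ _ h
      simp only [Prod.mk.injEq] at h ⊢
      tauto
  have c4 : CH q Y1 (fun w => (e2 w, A w)) =
      CH q Y1 (fun w => (W w.1, (Q w.1, (e w.1, e w.2)))) := by
    refine CH_congr h0 (fun _ _ _ _ h => (Prod.ext_iff.mp h).1)
      (fun _ _ _ _ h => (Prod.ext_iff.mp h).1) ?_ ?_ <;>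
    · intro ω ω' _ _ h
      simp only [hA, he2, Prod.mk.injEq] at h ⊢
      tauto
  have c5 : CH q Y1 A = CH p Y (fun ω => (W ω, (Q ω, e ω))) :=
    (push2_fst hp K).CH Y (fun ω => (W ω, (Q ω, e ω)))
  have c6 : CH q e2 (fun w => (K w.1, e w.1)) ≤ CH q e2 (fun w => (Y1 w, A w)) := by
    refine CH_mono_cond h0 ?_
    intro w w' hw hw' h
    have a := ((P2_pos hp w).mp hw).1
    have a' := ((P2_pos hp w').mp hw').1
    have b := hY _ _ a a' h
    simp only [Prod.mk.injEq] at h b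
    have c := hQ _ _ a a' h.1
    simp only [hA, hY1, Prod.mk.injEq]
    exact ⟨b.1, b.2, c, h.2⟩
  have c7 : CH q e2 (fun w => (K w.1, e w.1)) = CH p e K :=
    P2_ind hp K e (X := fun ω => (K ω, e ω)) (fun _ _ _ _ h => (Prod.ext_iff.mp h).1)
  have c8 : CH q e2 A ≤ CH p e Q := by
    have f0 : CH q e2 A ≤ CH q e2 (fun w => Q w.1) := CH_mono_cond h0 fun w w' _ _ h => by
      simp only [hA, Prod.mk.injEq] at h
      exact h.2.1
    have f1 : CH q e2 (fun w => Q w.1) = CH q e2 (fun w => Q w.2) :=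
      CH_supp h0 (fun _ _ => rfl) (fun w hw => P2_rec hp hQ hw)
    have f2 : CH q e2 (fun w => Q w.2) = CH p e Q := (push2_snd hp K).CH e Q
    linarith
  linarith

end

end Pool.OWN17
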