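import Pool.Agent.H17.OWN.P3

/-!
# Three lines through one point

One line: the record `K` of the point, a coarse record `Q`, the direction `e` (a number `r e`), the
frame digits `ju`, `jv` (gradients of `u` and `v` over `(t, y)`, functions of the record), the velocity
digits `du`, `dv` of the line, and a closed functional: `dv = s + B du / 2 ^ g` with `B` and `s` few bits
given `(Q, e)`.

* `tri5`: if the slopes `B` of two lines through the same point are separated and the directions are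
  separated, then the frame costs no more than the velocity of one line.
* `tri6`: in the same situation, with the positions `U`, `V` of the point: `V = P + B U / 2 ^ g` and
  `CH (P, B) ≤ U₀`, the position costs at most `2 U₀`.
-/

set_option autoImplicit false

namespace Pool.OWN17

open Finset Real
open Pool.Agent.H49.Ent Pool.Agent.H32.Dense Pool.STK Pool.CH30 Pool.KM7

section count

variable {Ω T S : Type} [Fintype Ω] {p : Ω → ℝ}

/-- Counting with an exceptional event. -/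
theorem cnt (hp : IsLaw p) (X : Ω → ℤ) (W : Ω → T) (Gd : T → Prop) (c : T → ℝ) (R D : ℕ)
    (h1 : ∀ ω, 0 < p ω → Gd (W ω) → |(X ω : ℝ) - c (W ω)| ≤ R)
    (h2 : ∀ ω, 0 < p ω → |X ω| ≤ (D : ℤ)) :
    CH p X W ≤ Real.log (2 * (R + 1) + 1) +
      law p (fun ω => ¬ Gd (W ω)) True * Real.log (2 * D + 1) := by
  classical
  have h0 := hp.nonneg
  set F : T → Finset ℤ := fun t => if Gd t then
    Finset.Icc (⌊c t⌋ - ((R + 1 : ℕ) : ℤ)) (⌊c t⌋ + ((R + 1 : ℕ) : ℤ)) else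
    Finset.Icc (-(D : ℤ)) D with hF
  have hmem : ∀ ω, 0 < p ω → X ω ∈ F (W ω) := by
    intro ω hω
    rw [hF]
    simp only
    by_cases hg : Gd (W ω)
    · rw [if_pos hg, Finset.mem_Icc]
      have a := abs_le.mp (h1 ω hω hg)
      have b1 := Int.floor_le (c (W ω))
      have b2 := Int.lt_floor_add_one (c (W ω))
      have c1 : ((⌊c (W ω)⌋ - ((R + 1 : ℕ) : ℤ) : ℤ) : ℝ) ≤ ((X ω : ℤ) : ℝ) := by
        push_cast
        linarith [a.1]
      have c2 : ((X ω : ℤ) : ℝ) ≤ ((⌊c (W ω)⌋ + ((R + 1 : ℕ) : ℤ) : ℤ) : ℝ) := by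
        push_cast
        linarith [a.2]
      exact ⟨Int.cast_le.mp c1, Int.cast_le.mp c2⟩
    · rw [if_neg hg, Finset.mem_Icc]
      exact ⟨(abs_le.mp (h2 ω hω)).1, (abs_le.mp (h2 ω hω)).2⟩
  refine (CH_le_card h0 hp.sum_one X W F hmem).trans ?_
  have hlR : 0 ≤ Real.log (2 * ((R : ℝ) + 1) + 1) := Real.log_nonneg (by
    have : (0 : ℝ) ≤ R := Nat.cast_nonneg R
    linarith)
  have hlD : 0 ≤ Real.log (2 * (D : ℝ) + 1) := Real.log_nonneg (by
    have : (0 : ℝ) ≤ D := Nat.cast_nonneg D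
    linarith)
  have hterm : ∀ ω, p ω * Real.log ((F (W ω)).card) ≤
      p ω * Real.log (2 * (R + 1) + 1) +
        (if (¬ Gd (W ω)) = True then p ω else 0) * Real.log (2 * D + 1) := by
    intro ω
    by_cases hg : Gd (W ω)
    · have e1 : (F (W ω)).card = 2 * (R + 1) + 1 := by
        rw [hF]
        simp only
        rw [if_pos hg, Int.card_Icc]
        omega
      rw [e1]
      push_cast
      have e2 : ¬ ((¬ Gd (W ω)) = True) := fun h => (of_eq_true h) hg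
      rw [if_neg e2, zero_mul, add_zero]
    · have e1 : (F (W ω)).card = 2 * D + 1 := by
        rw [hF]
        simp only
        rw [if_neg hg, Int.card_Icc]
        omega
      rw [e1]
      push_cast
      have e2 : (¬ Gd (W ω)) = True := eq_true hg
      rw [if_pos e2]
      nlinarith [mul_nonneg (h0 ω) hlR]
  unfold Ex
  refine (Finset.sum_le_sum fun ω _ => hterm ω).trans (le_of_eq ?_)
  rw [Finset.sum_add_distrib, ← Finset.sum_mul, ← Finset.sum_mul, hp.sum_one, one_mul]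
  congr 1
  congr 1
  unfold law
  refine Finset.sum_congr rfl fun i _ => ?_
  by_cases h : (¬ Gd (W i)) = True
  · rw [if_pos h, if_pos h]
  · rw [if_neg h, if_neg h]

/-- Counting without exceptional event. -/
theorem cnt0 (hp : IsLaw p) (X : Ω → ℤ) (W : Ω → T) (c : T → ℝ) (R : ℕ)
    (h1 : ∀ ω, 0 < p ω → |(X ω : ℝ) - c (W ω)| ≤ R) :
    CH p X W ≤ Real.log (2 * (R + 1) + 1) := by
  classical
  obtain ⟨D, hD⟩ : ∃ D : ℕ, ∀ ω, |X ω| ≤ (D : ℤ) := by
    refine ⟨∑ ω, (X ω).natAbs, fun ω => ?_⟩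
    rw [Int.abs_eq_natAbs]
    exact_mod_cast Finset.single_le_sum (f := fun ω => (X ω).natAbs) (fun _ _ => Nat.zero_le _)
      (Finset.mem_univ ω)
  have h := cnt hp X W (fun _ => True) c R D (fun ω hω _ => h1 ω hω) (fun ω _ => hD ω)
  have e : law p (fun _ : Ω => ¬ True) True = 0 := by
    unfold law
    refine Finset.sum_eq_zero fun ω _ => ?_
    rw [if_neg]
    intro hh
    exact (of_eq_true hh) trivial
  rw [e, zero_mul, add_zero] at h
  exact h

theorem law_or (hp : IsLaw p) (A B : Ω → Prop) :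
    law p (fun ω => A ω ∨ B ω) True ≤ law p A True + law p B True := by
  classical
  unfold law
  rw [← Finset.sum_add_distrib]
  refine Finset.sum_le_sum fun ω _ => ?_
  by_cases hA : A ω
  · have e1 : (A ω ∨ B ω) = True := eq_true (Or.inl hA)
    have e2 : A ω = True := eq_true hA
    rw [if_pos e1, if_pos e2]
    split_ifs
    · linarith [hp.nonneg ω]
    · linarith
  · by_cases hB : B ω
    · have e1 : (A ω ∨ B ω) = True := eq_true (Or.inr hB)
      have e2 : B ω = True := eq_true hB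
      rw [if_pos e1, if_pos e2]
      split_ifs
      · linarith [hp.nonneg ω]
      · linarith
    · have e1 : ¬ ((A ω ∨ B ω) = True) := fun h => (of_eq_true h).elim hA hB
      rw [if_neg e1]
      split_ifs <;> linarith [hp.nonneg ω]

theorem law_imp (hp : IsLaw p) {A B : Ω → Prop} (h : ∀ ω, 0 < p ω → A ω → B ω) :
    law p A True ≤ law p B True := by
  classical
  unfold law
  refine Finset.sum_le_sum fun ω _ => ?_
  by_cases hA : A ω = True
  · rw [if_pos hA]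
    rcases (hp.nonneg ω).eq_or_lt with h0 | h0
    · rw [← h0]
      split_ifs <;> exact le_rfl
    · rw [if_pos (eq_true (h ω h0 (of_eq_true hA)))]
  · rw [if_neg hA]
    split_ifs
    · exact hp.nonneg ω
    · exact le_rfl

end count

section arith

/-- The algebra of the three lines. -/
theorem solve {C X G r₁ r₂ r₃ b₁ b₂ b₃ s₁ s₂ s₃ u₁ u₂ u₃ v₁ v₂ v₃ jt jy kt ky : ℝ}
    (hC : 1 ≤ C) (hX : 1 ≤ X) (hG : 0 < G)
    (hr₁ : |r₁| ≤ C) (hr₂ : |r₂| ≤ C) (hr₃ : |r₃| ≤ C)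
    (h12 : 1 ≤ |r₁ - r₂| * X) (h13 : 1 ≤ |r₁ - r₃| * X)
    (hb : G ≤ |b₂ - b₃| * X) (hb₃ : |b₃| ≤ C * G)
    (hu₁ : |u₁ - (jt + r₁ * jy)| ≤ C) (hu₂ : |u₂ - (jt + r₂ * jy)| ≤ C)
    (hu₃ : |u₃ - (jt + r₃ * jy)| ≤ C)
    (hv₁ : |v₁ - (kt + r₁ * ky)| ≤ C) (hv₂ : |v₂ - (kt + r₂ * ky)| ≤ C)
    (hv₃ : |v₃ - (kt + r₃ * ky)| ≤ C)
    (hs₁ : |v₁ - (s₁ + b₁ / G * u₁)| ≤ C) (hs₂ : |v₂ - (s₂ + b₂ / G * u₂)| ≤ C)
    (hs₃ : |v₃ - (s₃ + b₃ / G * u₃)| ≤ C) :
    |u₂ - (s₃ - (r₂ - r₃) / (r₂ - r₁) * s₁ - (r₃ - r₁) / (r₂ - r₁) * s₂ -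
      (r₂ - r₃) / (r₂ - r₁) * ((b₁ - b₃) / G) * u₁) /
        ((r₃ - r₁) / (r₂ - r₁) * ((b₂ - b₃) / G))| ≤ 30 * C ^ 4 * X ^ 3 := by
  have hX0 : 0 < X := by linarith
  have hC0 : 0 < C := by linarith
  have h21 : r₂ - r₁ ≠ 0 := by
    intro h
    have : r₁ - r₂ = 0 := by linarith
    rw [this, abs_zero, zero_mul] at h12
    linarith
  have h31 : r₃ - r₁ ≠ 0 := by
    intro h
    have : r₁ - r₃ = 0 := by linarith
    rw [this, abs_zero, zero_mul] at h13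
    linarith
  have hb23 : b₂ - b₃ ≠ 0 := by
    intro h
    rw [h, abs_zero, zero_mul] at hb
    linarith
  set α := (r₂ - r₃) / (r₂ - r₁) with hα
  set β := (r₃ - r₁) / (r₂ - r₁) with hβ
  have hαβ : α + β = 1 := by
    rw [hα, hβ]
    field_simp
    ring
  have hαβr : α * r₁ + β * r₂ = r₃ := by
    rw [hα, hβ]
    field_simp
    ring
  have hinv : 1 / |r₂ - r₁| ≤ X := by
    rw [abs_sub_comm r₂ r₁, div_le_iff₀ (abs_pos.mpr (by intro h; apply h21; linarith))]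
    linarith
  have d23 : |r₂ - r₃| ≤ 2 * C := by
    calc |r₂ - r₃| ≤ |r₂| + |r₃| := abs_sub _ _
      _ ≤ 2 * C := by linarith
  have d31 : |r₃ - r₁| ≤ 2 * C := by
    calc |r₃ - r₁| ≤ |r₃| + |r₁| := abs_sub _ _
      _ ≤ 2 * C := by linarith
  have d21 : |r₂ - r₁| ≤ 2 * C := by
    calc |r₂ - r₁| ≤ |r₂| + |r₁| := abs_sub _ _
      _ ≤ 2 * C := by linarith
  have p21 : 0 < |r₂ - r₁| := abs_pos.mpr h21
  have hαa : |α| ≤ 2 * C * X := by
    rw [hα, abs_div, div_eq_mul_one_div]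
    exact mul_le_mul d23 hinv (by positivity) (by positivity)
  have hβa : |β| ≤ 2 * C * X := by
    rw [hβ, abs_div, div_eq_mul_one_div]
    exact mul_le_mul d31 hinv (by positivity) (by positivity)
  have hβl : 1 ≤ |β| * (2 * C * X) := by
    have e1 : |β| * |r₂ - r₁| = |r₃ - r₁| := by
      rw [hβ, abs_div]
      field_simp
    have e2 : 1 ≤ |r₃ - r₁| * X := by
      rw [abs_sub_comm]
      exact h13
    have e3 : |β| * |r₂ - r₁| * X ≤ |β| * (2 * C) * X := by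
      apply mul_le_mul_of_nonneg_right _ hX0.le
      exact mul_le_mul_of_nonneg_left d21 (abs_nonneg _)
    rw [e1] at e3
    nlinarith
  set bb := (b₂ - b₃) / G with hbb
  have hbbl : 1 ≤ |bb| * X := by
    rw [hbb, abs_div, abs_of_pos hG, div_mul_eq_mul_div, le_div_iff₀ hG]
    linarith
  have hbb0 : bb ≠ 0 := div_ne_zero hb23 hG.ne'
  have hβ0 : β ≠ 0 := div_ne_zero h31 h21
  set σ₁ := v₁ - (s₁ + b₁ / G * u₁) with hσ₁
  set σ₂ := v₂ - (s₂ + b₂ / G * u₂) with hσ₂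
  set σ₃ := v₃ - (s₃ + b₃ / G * u₃) with hσ₃
  set δ₁ := u₁ - (jt + r₁ * jy) with hδ₁
  set δ₂ := u₂ - (jt + r₂ * jy) with hδ₂
  set δ₃ := u₃ - (jt + r₃ * jy) with hδ₃
  set ε₁ := v₁ - (kt + r₁ * ky) with hε₁
  set ε₂ := v₂ - (kt + r₂ * ky) with hε₂
  set ε₃ := v₃ - (kt + r₃ * ky) with hε₃
  have eu : u₃ = α * u₁ + β * u₂ + (δ₃ - α * δ₁ - β * δ₂) := by
    have : u₃ - (α * u₁ + β * u₂ + (δ₃ - α * δ₁ - β * δ₂)) =
        jt * (1 - (α + β)) + jy * (r₃ - (α * r₁ + β * r₂)) := by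
      rw [hδ₁, hδ₂, hδ₃]
      ring
    rw [hαβ, hαβr] at this
    linarith
  have ev : v₃ = α * v₁ + β * v₂ + (ε₃ - α * ε₁ - β * ε₂) := by
    have : v₃ - (α * v₁ + β * v₂ + (ε₃ - α * ε₁ - β * ε₂)) =
        kt * (1 - (α + β)) + ky * (r₃ - (α * r₁ + β * r₂)) := by
      rw [hε₁, hε₂, hε₃]
      ring
    rw [hαβ, hαβr] at this
    linarith
  set ρ := (ε₃ - α * ε₁ - β * ε₂) - b₃ / G * (δ₃ - α * δ₁ - β * δ₂) - σ₃ + α * σ₁ + β * σ₂ with hρ
  have key : s₃ - α * s₁ - β * s₂ - α * ((b₁ - b₃) / G) * u₁ = β * bb * u₂ + ρ := by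
    have e1 : s₃ = v₃ - b₃ / G * u₃ - σ₃ := by rw [hσ₃]; ring
    have e2 : s₁ = v₁ - b₁ / G * u₁ - σ₁ := by rw [hσ₁]; ring
    have e3 : s₂ = v₂ - b₂ / G * u₂ - σ₂ := by rw [hσ₂]; ring
    rw [e1, e2, e3, ev, eu, hρ, hbb]
    ring
  have hab : ∀ x y z : ℝ, |x| ≤ C → |y| ≤ C → |z| ≤ C → |x - α * y - β * z| ≤ 5 * C ^ 2 * X := by
    intro x y z hx hy hz
    have e1 : |α * y| ≤ 2 * C * X * C := by
      rw [abs_mul]
      exact mul_le_mul hαa hy (abs_nonneg _) (by positivity)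
    have e2 : |β * z| ≤ 2 * C * X * C := by
      rw [abs_mul]
      exact mul_le_mul hβa hz (abs_nonneg _) (by positivity)
    have e3 : |x - α * y - β * z| ≤ |x| + |α * y| + |β * z| := by
      calc |x - α * y - β * z| ≤ |x - α * y| + |β * z| := abs_sub _ _
        _ ≤ |x| + |α * y| + |β * z| := by
          have := abs_sub x (α * y)
          linarith
    have e4 : C ≤ C ^ 2 * X := by nlinarith [mul_pos hC0 hX0]
    nlinarith
  have hb3G : |b₃ / G| ≤ C := by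
    rw [abs_div, abs_of_pos hG, div_le_iff₀ hG]
    exact hb₃
  have hρb : |ρ| ≤ 15 * C ^ 3 * X := by
    have a1 := hab ε₃ ε₁ ε₂ hv₃ hv₁ hv₂
    have a2 := hab δ₃ δ₁ δ₂ hu₃ hu₁ hu₂
    have a3 := hab σ₃ σ₁ σ₂ hs₃ hs₁ hs₂
    have a4 : |b₃ / G * (δ₃ - α * δ₁ - β * δ₂)| ≤ C * (5 * C ^ 2 * X) := by
      rw [abs_mul]
      exact mul_le_mul hb3G a2 (abs_nonneg _) hC0.le
    have e1 : ρ = (ε₃ - α * ε₁ - β * ε₂) - b₃ / G * (δ₃ - α * δ₁ - β * δ₂) -
        (σ₃ - α * σ₁ - β * σ₂) := by rw [hρ]; ring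
    have e2 : |ρ| ≤ |ε₃ - α * ε₁ - β * ε₂| + |b₃ / G * (δ₃ - α * δ₁ - β * δ₂)| +
        |σ₃ - α * σ₁ - β * σ₂| := by
      rw [e1]
      refine (abs_sub _ _).trans ?_
      have := abs_sub (ε₃ - α * ε₁ - β * ε₂) (b₃ / G * (δ₃ - α * δ₁ - β * δ₂))
      linarith
    have e3 : C ^ 2 * X ≤ C ^ 3 * X := by
      have : C ^ 3 * X - C ^ 2 * X = C ^ 2 * X * (C - 1) := by ring
      have h5 : 0 ≤ C ^ 2 * X * (C - 1) := mul_nonneg (by positivity) (by linarith)
      linarith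
    nlinarith
  have efin : u₂ - (s₃ - α * s₁ - β * s₂ - α * ((b₁ - b₃) / G) * u₁) / (β * bb) =
      -(ρ / (β * bb)) := by
    rw [key]
    field_simp
    ring
  rw [efin, abs_neg, abs_div, div_le_iff₀ (abs_pos.mpr (mul_ne_zero hβ0 hbb0)), abs_mul]
  have f1 : 1 ≤ (|β| * (2 * C * X)) * (|bb| * X) := by
    nlinarith [abs_nonneg β, abs_nonneg bb]
  have f2 : |ρ| ≤ 15 * C ^ 3 * X * ((|β| * (2 * C * X)) * (|bb| * X)) :=
    hρb.trans (le_mul_of_one_le_right (by positivity) f1)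
  refine f2.trans (le_of_eq ?_)
  ring

/-- The frame from the velocities of two lines. -/
theorem solveJ {C X r₁ r₂ u₁ u₂ jt jy : ℝ} (hX : 1 ≤ X) (hC : 1 ≤ C)
    (h12 : 1 ≤ |r₁ - r₂| * X)
    (hu₁ : |u₁ - (jt + r₁ * jy)| ≤ C) (hu₂ : |u₂ - (jt + r₂ * jy)| ≤ C) :
    |jy - (u₁ - u₂) / (r₁ - r₂)| ≤ 2 * C * X := by
  have hX0 : 0 < X := by linarith
  have h0 : r₁ - r₂ ≠ 0 := by
    intro h
    rw [h, abs_zero, zero_mul] at h12
    linarith
  have e : jy - (u₁ - u₂) / (r₁ - r₂) =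
      ((u₂ - (jt + r₂ * jy)) - (u₁ - (jt + r₁ * jy))) / (r₁ - r₂) := by
    field_simp
    ring
  rw [e, abs_div, div_le_iff₀ (abs_pos.mpr h0)]
  have h1 : |(u₂ - (jt + r₂ * jy)) - (u₁ - (jt + r₁ * jy))| ≤ 2 * C := by
    refine (abs_sub _ _).trans ?_
    linarith
  refine h1.trans ?_
  nlinarith

end arith

end Pool.OWN17
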