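import Pool.Agent.H17.OWN.Tri

/-!
# Three lines through one point: the frame costs one velocity

See `Tri.lean`.
-/

set_option autoImplicit false

namespace Pool.OWN17

open Finset Real
open Pool.Agent.H49.Ent Pool.Agent.H32.Dense Pool.STK Pool.CH30 Pool.KM7

section

variable {Ω 𝒦 𝒬 ℰ : Type} [Fintype Ω] {p : Ω → ℝ}

theorem CH_pair_le {Ω' S T U : Type} [Fintype Ω'] {q : Ω' → ℝ} (h0 : ∀ ω, 0 ≤ q ω) (X : Ω' → S)
    (Y : Ω' → T) (W : Ω' → U) {a b : ℝ} (h1 : CH q Y W ≤ a)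
    (h2 : CH q X (fun ω => (Y ω, W ω)) ≤ b) : CH q (fun ω => (X ω, Y ω)) W ≤ a + b := by
  rw [CH_chain h0]
  linarith

/-- **Three lines, the frame.** -/
theorem tri5 (hp : IsLaw p) {K : Ω → 𝒦} {Q : Ω → 𝒬} (hQ : Det p K Q) (e : Ω → ℰ) (r : ℰ → ℝ)
    {C : ℕ} (hC : 1 ≤ C) (g x D : ℕ) (ju jv : Ω → ℤ × ℤ)
    (hJ : Det p K (fun ω => (ju ω, jv ω))) (du dv B s : Ω → ℤ)
    (hr : ∀ ω, 0 < p ω → |r (e ω)| ≤ C)
    (hB : ∀ ω, 0 < p ω → |B ω| ≤ ((C * 2 ^ g : ℕ) : ℤ))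
    (hD : ∀ ω, 0 < p ω → |du ω| ≤ (D : ℤ) ∧ |(ju ω).2| ≤ (D : ℤ) ∧ |(jv ω).2| ≤ (D : ℤ))
    (hdu : ∀ ω, 0 < p ω → |(du ω : ℝ) - ((ju ω).1 + r (e ω) * (ju ω).2)| ≤ C)
    (hdv : ∀ ω, 0 < p ω → |(dv ω : ℝ) - ((jv ω).1 + r (e ω) * (jv ω).2)| ≤ C)
    (hs : ∀ ω, 0 < p ω → |(dv ω : ℝ) - (s ω + (B ω : ℝ) / 2 ^ g * du ω)| ≤ C)
    {η : ℝ} (hsep : law (P2 p K) (fun w => |r (e w.1) - r (e w.2)| * 2 ^ x < 1) True ≤ η)
    (htr : law (P2 p K) (fun w => |(B w.1 : ℝ) - B w.2| * 2 ^ x < 2 ^ g) True ≤ η) :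
    CH p (fun ω => (ju ω, jv ω)) Q ≤ CH p (fun ω => (du ω, dv ω)) (fun ω => (Q ω, e ω)) +
      3 * (CH p e Q - CH p e K) + 3 * CH p (fun ω => (B ω, s ω)) (fun ω => (Q ω, e ω)) +
      (Real.log (2 * (((30 * C ^ 4 * (2 ^ x) ^ 3 : ℕ) : ℝ) + 1) + 1) +
        2 * Real.log (2 * (((2 * C * 2 ^ x : ℕ) : ℝ) + 1) + 1) +
        3 * Real.log (2 * ((C : ℝ) + 1) + 1) + 5 * η * Real.log (2 * D + 1)) := by
  classical
  have hq := P3_isLaw hp K
  have h0 := hq.nonneg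
  set q := P3 p K with hqd
  set W : (Ω × Ω) × Ω → 𝒬 × (ℰ × (ℰ × ℰ)) :=
    fun w => (Q w.1.1, (e w.1.1, (e w.1.2, e w.2))) with hW
  have hC' : (1 : ℝ) ≤ C := by exact_mod_cast hC
  have hX : (1 : ℝ) ≤ 2 ^ x := one_le_pow₀ (by norm_num)
  have hG : (0 : ℝ) < 2 ^ g := by positivity
  have hlD : 0 ≤ Real.log (2 * (D : ℝ) + 1) := Real.log_nonneg (by
    have : (0 : ℝ) ≤ D := Nat.cast_nonneg D
    linarith)
  -- the frame is common
  have hj2 : ∀ w, 0 < q w → ju w.1.1 = ju w.1.2 ∧ jv w.1.1 = jv w.1.2 := fun w hw =>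
    Prod.ext_iff.mp (P3_rec2 hp hJ hw)
  have hj3 : ∀ w, 0 < q w → ju w.1.1 = ju w.2 ∧ jv w.1.1 = jv w.2 := fun w hw =>
    Prod.ext_iff.mp (P3_rec3 hp hJ hw)
  have hpos := fun w (hw : 0 < q w) => P3_pos hp K hw
  -- step A
  have sA : CH p (fun ω => (ju ω, jv ω)) Q - 3 * (CH p e Q - CH p e K) ≤
      CH q (fun w => (ju w.1.1, jv w.1.1)) W := P3_free hp hQ e hJ
  -- step B
  have sB : CH q (fun w => (du w.1.1, dv w.1.1)) W ≤
      CH p (fun ω => (du ω, dv ω)) (fun ω => (Q ω, e ω)) := by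
    have h1 : CH q (fun w => (du w.1.1, dv w.1.1)) W ≤
        CH q (fun w => (du w.1.1, dv w.1.1)) (fun w => (Q w.1.1, e w.1.1)) :=
      CH_mono_cond h0 fun w w' _ _ h => by
        simp only [hW, Prod.mk.injEq] at h ⊢
        exact ⟨h.1, h.2.1⟩
    have h2 := (push1 hp K).CH (fun ω => (du ω, dv ω)) (fun ω => (Q ω, e ω))
    linarith
  -- the functionals
  have sBS : CH q (fun w => ((B w.1.1, s w.1.1), ((B w.1.2, s w.1.2), (B w.2, s w.2)))) W ≤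
      3 * CH p (fun ω => (B ω, s ω)) (fun ω => (Q ω, e ω)) := by
    have a1 := CH_subadd h0 (fun w : (Ω × Ω) × Ω => (B w.1.1, s w.1.1))
      (fun w => ((B w.1.2, s w.1.2), (B w.2, s w.2))) W
    have a2 := CH_subadd h0 (fun w : (Ω × Ω) × Ω => (B w.1.2, s w.1.2))
      (fun w => (B w.2, s w.2)) W
    have b1 : CH q (fun w => (B w.1.1, s w.1.1)) W ≤
        CH p (fun ω => (B ω, s ω)) (fun ω => (Q ω, e ω)) := by
      have h1 : CH q (fun w => (B w.1.1, s w.1.1)) W ≤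
          CH q (fun w => (B w.1.1, s w.1.1)) (fun w => (Q w.1.1, e w.1.1)) :=
        CH_mono_cond h0 fun w w' _ _ h => by
          simp only [hW, Prod.mk.injEq] at h ⊢
          exact ⟨h.1, h.2.1⟩
      have h2 := (push1 hp K).CH (fun ω => (B ω, s ω)) (fun ω => (Q ω, e ω))
      linarith
    have b2 : CH q (fun w => (B w.1.2, s w.1.2)) W ≤
        CH p (fun ω => (B ω, s ω)) (fun ω => (Q ω, e ω)) := by
      have h1 : CH q (fun w => (B w.1.2, s w.1.2)) W ≤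
          CH q (fun w => (B w.1.2, s w.1.2)) (fun w => (Q w.1.2, e w.1.2)) :=
        CH_mono_cond h0 fun w w' hw hw' h => by
          simp only [hW, Prod.mk.injEq] at h ⊢
          refine ⟨?_, h.2.2.1⟩
          rw [← P3_rec2 hp hQ hw, ← P3_rec2 hp hQ hw']
          exact h.1
      have h2 := (push2 hp K).CH (fun ω => (B ω, s ω)) (fun ω => (Q ω, e ω))
      linarith
    have b3 : CH q (fun w => (B w.2, s w.2)) W ≤
        CH p (fun ω => (B ω, s ω)) (fun ω => (Q ω, e ω)) := by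
      have h1 : CH q (fun w => (B w.2, s w.2)) W ≤
          CH q (fun w => (B w.2, s w.2)) (fun w => (Q w.2, e w.2)) :=
        CH_mono_cond h0 fun w w' hw hw' h => by
          simp only [hW, Prod.mk.injEq] at h ⊢
          refine ⟨?_, h.2.2.2⟩
          rw [← P3_rec3 hp hQ hw, ← P3_rec3 hp hQ hw']
          exact h.1
      have h2 := (push3 hp K).CH (fun ω => (B ω, s ω)) (fun ω => (Q ω, e ω))
      linarith
    linarith
  -- the exceptional events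
  have l12 : law q (fun w => |r (e w.1.1) - r (e w.1.2)| * 2 ^ x < 1) True ≤ η :=
    ((push12 hp K).law (fun v => |r (e v.1) - r (e v.2)| * 2 ^ x < 1) True).le.trans hsep
  have l13 : law q (fun w => |r (e w.1.1) - r (e w.2)| * 2 ^ x < 1) True ≤ η :=
    ((push13 hp K).law (fun v => |r (e v.1) - r (e v.2)| * 2 ^ x < 1) True).le.trans hsep
  have l23 : law q (fun w => |(B w.1.2 : ℝ) - B w.2| * 2 ^ x < 2 ^ g) True ≤ η :=
    ((push23 hp K).law (fun v => |(B v.1 : ℝ) - B v.2| * 2 ^ x < 2 ^ g) True).le.trans htr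
  -- step D, first coordinate
  have sD1 : CH q (fun w => du w.1.2)
      (fun w => (((B w.1.1, s w.1.1), ((B w.1.2, s w.1.2), (B w.2, s w.2))),
        ((du w.1.1, dv w.1.1), W w))) ≤
      Real.log (2 * (((30 * C ^ 4 * (2 ^ x) ^ 3 : ℕ) : ℝ) + 1) + 1) +
        3 * η * Real.log (2 * D + 1) := by
    set c : ((ℤ × ℤ) × ((ℤ × ℤ) × (ℤ × ℤ))) × ((ℤ × ℤ) × (𝒬 × (ℰ × (ℰ × ℰ)))) → ℝ := fun z =>
      ((z.1.2.2.2 : ℝ) - (r z.2.2.2.2.1 - r z.2.2.2.2.2) / (r z.2.2.2.2.1 - r z.2.2.2.1) * z.1.1.2 -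
        (r z.2.2.2.2.2 - r z.2.2.2.1) / (r z.2.2.2.2.1 - r z.2.2.2.1) * z.1.2.1.2 -
        (r z.2.2.2.2.1 - r z.2.2.2.2.2) / (r z.2.2.2.2.1 - r z.2.2.2.1) *
          (((z.1.1.1 : ℝ) - z.1.2.2.1) / 2 ^ g) * z.2.1.1) /
        ((r z.2.2.2.2.2 - r z.2.2.2.1) / (r z.2.2.2.2.1 - r z.2.2.2.1) *
          (((z.1.2.1.1 : ℝ) - z.1.2.2.1) / 2 ^ g)) with hc
    set Gd : ((ℤ × ℤ) × ((ℤ × ℤ) × (ℤ × ℤ))) × ((ℤ × ℤ) × (𝒬 × (ℰ × (ℰ × ℰ)))) → Prop :=
      fun z => 1 ≤ |r z.2.2.2.1 - r z.2.2.2.2.1| * 2 ^ x ∧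
        1 ≤ |r z.2.2.2.1 - r z.2.2.2.2.2| * 2 ^ x ∧
        (2 : ℝ) ^ g ≤ |(z.1.2.1.1 : ℝ) - z.1.2.2.1| * 2 ^ x with hGd
    have h1 := cnt hq (fun w : (Ω × Ω) × Ω => du w.1.2)
      (fun w => (((B w.1.1, s w.1.1), ((B w.1.2, s w.1.2), (B w.2, s w.2))),
        ((du w.1.1, dv w.1.1), W w))) Gd c (30 * C ^ 4 * (2 ^ x) ^ 3) D
      (fun w hw hg => by
        obtain ⟨p1, p2, p3, -, -⟩ := hpos w hw
        obtain ⟨a1, a2⟩ := hj2 w hw
        obtain ⟨a3, a4⟩ := hj3 w hw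
        have u1 := hdu _ p1
        have u2 := hdu _ p2
        have u3 := hdu _ p3
        have v1 := hdv _ p1
        have v2 := hdv _ p2
        have v3 := hdv _ p3
        rw [← a1] at u2
        rw [← a3] at u3
        rw [← a2] at v2
        rw [← a4] at v3
        have b3 : |((B w.2 : ℤ) : ℝ)| ≤ C * 2 ^ g := by
          have := hB _ p3
          have h2 : ((|B w.2| : ℤ) : ℝ) ≤ (((C * 2 ^ g : ℕ) : ℤ) : ℝ) := Int.cast_le.mpr this
          push_cast at h2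
          exact h2
        obtain ⟨g1, g2, g3⟩ := hg
        have h := solve (C := (C : ℝ)) (X := 2 ^ x) (G := 2 ^ g) hC' hX hG (hr _ p1) (hr _ p2)
          (hr _ p3) g1 g2 g3 b3 u1 u2 u3 v1 v2 v3 (hs _ p1) (hs _ p2) (hs _ p3)
        push_cast
        exact h)
      (fun w hw => (hD _ (hpos w hw).2.1).1)
    have h2 : law q (fun w => ¬ Gd (((B w.1.1, s w.1.1), ((B w.1.2, s w.1.2), (B w.2, s w.2))),
        ((du w.1.1, dv w.1.1), W w))) True ≤ 3 * η := by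
      have k1 : law q (fun w => ¬ Gd (((B w.1.1, s w.1.1), ((B w.1.2, s w.1.2), (B w.2, s w.2))),
          ((du w.1.1, dv w.1.1), W w))) True ≤
          law q (fun w => (|r (e w.1.1) - r (e w.1.2)| * 2 ^ x < 1) ∨
            ((|r (e w.1.1) - r (e w.2)| * 2 ^ x < 1) ∨
              (|(B w.1.2 : ℝ) - B w.2| * 2 ^ x < 2 ^ g))) True :=
        law_imp hq fun w _ hg => by
          by_contra hcon
          push Not at hcon
          exact hg ⟨hcon.1, hcon.2.1, hcon.2.2⟩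
      have k2 := law_or hq (fun w : (Ω × Ω) × Ω => |r (e w.1.1) - r (e w.1.2)| * 2 ^ x < 1)
        (fun w => (|r (e w.1.1) - r (e w.2)| * 2 ^ x < 1) ∨
              (|(B w.1.2 : ℝ) - B w.2| * 2 ^ x < 2 ^ g))
      have k3 := law_or hq (fun w : (Ω × Ω) × Ω => |r (e w.1.1) - r (e w.2)| * 2 ^ x < 1)
        (fun w => |(B w.1.2 : ℝ) - B w.2| * 2 ^ x < 2 ^ g)
      linarith
    have h3 := mul_le_mul_of_nonneg_right h2 hlD
    linarith
  -- step D, second coordinate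
  have sD2 : CH q (fun w => dv w.1.2)
      (fun w => (du w.1.2, (((B w.1.1, s w.1.1), ((B w.1.2, s w.1.2), (B w.2, s w.2))),
        ((du w.1.1, dv w.1.1), W w)))) ≤ Real.log (2 * ((C : ℝ) + 1) + 1) :=
    cnt0 hq _ _ (fun z => (z.2.1.2.1.2 : ℝ) + (z.2.1.2.1.1 : ℝ) / 2 ^ g * z.1) C
      (fun w hw => hs _ (hpos w hw).2.1)
  have sD : CH q (fun w => (du w.1.2, dv w.1.2)) (fun w => ((du w.1.1, dv w.1.1), W w)) ≤
      3 * CH p (fun ω => (B ω, s ω)) (fun ω => (Q ω, e ω)) +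
        (Real.log (2 * (((30 * C ^ 4 * (2 ^ x) ^ 3 : ℕ) : ℝ) + 1) + 1) +
        3 * η * Real.log (2 * D + 1) + Real.log (2 * ((C : ℝ) + 1) + 1)) := by
    have a1 := CH_le_add h0 (fun w => (du w.1.2, dv w.1.2))
      (fun w => ((B w.1.1, s w.1.1), ((B w.1.2, s w.1.2), (B w.2, s w.2))))
      (fun w => ((du w.1.1, dv w.1.1), W w))
    have a2 : CH q (fun w => ((B w.1.1, s w.1.1), ((B w.1.2, s w.1.2), (B w.2, s w.2))))
        (fun w => ((du w.1.1, dv w.1.1), W w)) ≤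
        CH q (fun w => ((B w.1.1, s w.1.1), ((B w.1.2, s w.1.2), (B w.2, s w.2)))) W :=
      CH_mono_cond h0 fun w w' _ _ h => (Prod.ext_iff.mp h).2
    have a3 : CH q (fun w => (du w.1.2, dv w.1.2))
        (fun w => (((B w.1.1, s w.1.1), ((B w.1.2, s w.1.2), (B w.2, s w.2))),
          ((du w.1.1, dv w.1.1), W w))) =
        CH q (fun w => (dv w.1.2, du w.1.2))
        (fun w => (((B w.1.1, s w.1.1), ((B w.1.2, s w.1.2), (B w.2, s w.2))),
          ((du w.1.1, dv w.1.1), W w))) := by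
      refine CH_congr h0 ?_ ?_ (fun _ _ _ _ h => h) (fun _ _ _ _ h => h) <;>
      · intro ω ω' _ _ h
        have h1 := (Prod.ext_iff.mp h).1
        simp only [Prod.mk.injEq] at h1 ⊢
        tauto
    have a4 := CH_pair_le h0 (fun w : (Ω × Ω) × Ω => dv w.1.2) (fun w => du w.1.2)
      (fun w => (((B w.1.1, s w.1.1), ((B w.1.2, s w.1.2), (B w.2, s w.2))),
          ((du w.1.1, dv w.1.1), W w))) sD1 sD2
    linarith
  -- step C
  have sCy : ∀ (j : Ω → ℤ × ℤ) (d : Ω → ℤ), (∀ w, 0 < q w → j w.1.1 = j w.1.2) →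
      (∀ ω, 0 < p ω → |(d ω : ℝ) - ((j ω).1 + r (e ω) * (j ω).2)| ≤ C) →
      (∀ ω, 0 < p ω → |(j ω).2| ≤ (D : ℤ)) →
      CH q (fun w => (j w.1.1).1 ) (fun w => ((j w.1.1).2, ((d w.1.2, d w.1.1), W w))) +
        CH q (fun w => (j w.1.1).2) (fun w => ((d w.1.2, d w.1.1), W w)) ≤
        Real.log (2 * ((C : ℝ) + 1) + 1) +
          (Real.log (2 * (((2 * C * 2 ^ x : ℕ) : ℝ) + 1) + 1) + η * Real.log (2 * D + 1)) := by
    intro j d hj hd hDj
    have h1 : CH q (fun w => (j w.1.1).1 ) (fun w => ((j w.1.1).2, ((d w.1.2, d w.1.1), W w))) ≤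
        Real.log (2 * ((C : ℝ) + 1) + 1) :=
      cnt0 hq _ _ (fun z => (z.2.1.2 : ℝ) - r z.2.2.2.1 * z.1) C (fun w hw => by
        have := hd _ (hpos w hw).1
        rw [abs_sub_comm] at this
        have e1 : ((j w.1.1).1 : ℝ) - ((d w.1.1 : ℝ) - r (e w.1.1) * (j w.1.1).2) =
          ((j w.1.1).1 : ℝ) + r (e w.1.1) * (j w.1.1).2 - d w.1.1 := by ring
        show |((j w.1.1).1 : ℝ) - ((d w.1.1 : ℝ) - r (e w.1.1) * (j w.1.1).2)| ≤ C
        rw [e1]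
        exact this)
    have h2 := cnt hq (fun w : (Ω × Ω) × Ω => (j w.1.1).2)
      (fun w => ((d w.1.2, d w.1.1), W w))
      (fun z => 1 ≤ |r z.2.2.1 - r z.2.2.2.1| * 2 ^ x)
      (fun z => ((z.1.2 : ℝ) - z.1.1) / (r z.2.2.1 - r z.2.2.2.1)) (2 * C * 2 ^ x) D
      (fun w hw hg => by
        have u1 := hd _ (hpos w hw).1
        have u2 := hd _ (hpos w hw).2.1
        rw [← hj w hw] at u2
        have := solveJ (C := (C : ℝ)) (X := 2 ^ x) hX hC' hg u1 u2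
        push_cast
        exact this)
      (fun w hw => hDj _ (hpos w hw).1)
    have h3 : law q (fun w => ¬ (1 ≤ |r (W w).2.1 - r (W w).2.2.1| * 2 ^ x)) True ≤ η := by
      refine le_trans (law_imp hq fun w _ hg => ?_) l12
      exact not_le.mp hg
    have h4 := mul_le_mul_of_nonneg_right h3 hlD
    linarith
  have sCu := sCy ju du (fun w hw => (hj2 w hw).1) hdu (fun ω hω => (hD ω hω).2.1)
  have sCv := sCy jv dv (fun w hw => (hj2 w hw).2) hdv (fun ω hω => (hD ω hω).2.2)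
  have sC : CH q (fun w => (ju w.1.1, jv w.1.1))
      (fun w => ((du w.1.2, dv w.1.2), ((du w.1.1, dv w.1.1), W w))) ≤
      2 * (Real.log (2 * ((C : ℝ) + 1) + 1) +
          (Real.log (2 * (((2 * C * 2 ^ x : ℕ) : ℝ) + 1) + 1) + η * Real.log (2 * D + 1))) := by
    have a1 := CH_subadd h0 (fun w : (Ω × Ω) × Ω => ju w.1.1) (fun w => jv w.1.1)
      (fun w => ((du w.1.2, dv w.1.2), ((du w.1.1, dv w.1.1), W w)))
    have a2 : CH q (fun w => ju w.1.1)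
        (fun w => ((du w.1.2, dv w.1.2), ((du w.1.1, dv w.1.1), W w))) ≤
        CH q (fun w => ju w.1.1) (fun w => ((du w.1.2, du w.1.1), W w)) :=
      CH_mono_cond h0 fun w w' _ _ h => by
        simp only [Prod.mk.injEq] at h ⊢
        tauto
    have a3 : CH q (fun w => jv w.1.1)
        (fun w => ((du w.1.2, dv w.1.2), ((du w.1.1, dv w.1.1), W w))) ≤
        CH q (fun w => jv w.1.1) (fun w => ((dv w.1.2, dv w.1.1), W w)) :=
      CH_mono_cond h0 fun w w' _ _ h => by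
        simp only [Prod.mk.injEq] at h ⊢
        tauto
    have a4 := CH_chain h0 (fun w : (Ω × Ω) × Ω => (ju w.1.1).1) (fun w => (ju w.1.1).2)
      (fun w => ((du w.1.2, du w.1.1), W w))
    have a5 := CH_chain h0 (fun w : (Ω × Ω) × Ω => (jv w.1.1).1) (fun w => (jv w.1.1).2)
      (fun w => ((dv w.1.2, dv w.1.1), W w))
    linarith
  have sE := CH_le_add h0 (fun w => (ju w.1.1, jv w.1.1)) (fun w => (du w.1.1, dv w.1.1)) W
  have sF := CH_le_add h0 (fun w => (ju w.1.1, jv w.1.1)) (fun w => (du w.1.2, dv w.1.2))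
    (fun w => ((du w.1.1, dv w.1.1), W w))
  linarith

end

end Pool.OWN17
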